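import Mathlib

set_option autoImplicit false
set_option maxHeartbeats 1000000

/-!
Character sums over finite fields.
-/

open Polynomial Classical

namespace Pool.Agent.Y290.SC

section

variable {K : Type} [Field K] [Fintype K]

/-- the number of the points of the hyperbola -/
theorem hyp_card (h2 : (2 : K) ≠ 0) {c : K} (hc : c ≠ 0) :
    ((Finset.univ : Finset (K × K)).filter fun x => x.2 ^ 2 = x.1 ^ 2 - c).card =
      Fintype.card K - 1 := by
  have h1 : ((Finset.univ : Finset K).erase 0).card = Fintype.card K - 1 := by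
    rw [Finset.card_erase_of_mem (Finset.mem_univ _), Finset.card_univ]
  rw [← h1]
  refine Finset.card_bij' (fun x _ => x.1 - x.2) (fun t _ => ((t + c / t) / 2, (c / t - t) / 2))
    ?_ ?_ ?_ ?_
  · rintro ⟨x, y⟩ h
    rw [Finset.mem_filter] at h
    have h3 := h.2
    dsimp only at h3
    rw [Finset.mem_erase]
    refine ⟨?_, Finset.mem_univ _⟩
    intro h4
    apply hc
    dsimp only at h4
    linear_combination (x + y) * h4 + h3
  · intro t ht
    rw [Finset.mem_erase] at ht
    have ht0 := ht.1
    rw [Finset.mem_filter]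
    refine ⟨Finset.mem_univ _, ?_⟩
    dsimp only
    field_simp
    ring
  · rintro ⟨x, y⟩ h
    rw [Finset.mem_filter] at h
    have h3 := h.2
    dsimp only at h3
    have h4 : x - y ≠ 0 := by
      intro h4
      apply hc
      linear_combination (x + y) * h4 + h3
    have h5 : c / (x - y) = x + y := by
      rw [div_eq_iff h4]
      linear_combination h3
    dsimp only
    rw [h5]
    apply Prod.ext
    · dsimp only
      rw [div_eq_iff h2]
      ring
    · dsimp only
      rw [div_eq_iff h2]
      ring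
  · intro t ht
    dsimp only
    rw [← sub_div, div_eq_iff h2]
    ring

theorem two_ne (h2 : (2 : K) ≠ 0) : ringChar K ≠ 2 := by
  intro h
  apply h2
  have := ringChar.spec K 2
  have h3 : ((2 : ℕ) : K) = 0 := this.2 (by rw [h])
  exact_mod_cast h3

theorem jac (h2 : (2 : K) ≠ 0) {c : K} (hc : c ≠ 0) :
    ∑ b : K, quadraticChar K (b ^ 2 - c) = -1 := by
  have h1 : ∑ b : K, (quadraticChar K (b ^ 2 - c) + 1) = (Fintype.card K : ℤ) - 1 := by
    have h3 : ∀ b : K, (quadraticChar K (b ^ 2 - c) + 1) =
        (((Finset.univ : Finset K).filter fun y => y ^ 2 = b ^ 2 - c).card : ℤ) := by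
      intro b
      rw [← quadraticChar_card_sqrts (two_ne h2)]
      congr 2
      ext y
      simp
    rw [Finset.sum_congr rfl fun b _ => h3 b, ← Nat.cast_sum]
    have h4 : ∑ b : K, ((Finset.univ : Finset K).filter fun y => y ^ 2 = b ^ 2 - c).card =
        Fintype.card K - 1 := by
      rw [← hyp_card h2 hc, Finset.card_filter, ← Finset.univ_product_univ, Finset.sum_product]
      refine Finset.sum_congr rfl fun b _ => ?_
      rw [Finset.card_filter]
    rw [h4, Nat.cast_sub Fintype.card_pos]
    simp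
  rw [Finset.sum_add_distrib, Finset.sum_const, Finset.card_univ] at h1
  simp only [nsmul_eq_mul, mul_one] at h1
  linarith

theorem sum_sq : ∑ b : K, quadraticChar K (b ^ 2) = (Fintype.card K : ℤ) - 1 := by
  have h1 : ∀ b : K, quadraticChar K (b ^ 2) = 1 - if b = 0 then 1 else 0 := by
    intro b
    split_ifs with h
    · rw [h]
      simp
    · rw [quadraticChar_sq_one' h]
      simp
  rw [Finset.sum_congr rfl fun b _ => h1 b, Finset.sum_sub_distrib]
  simp

/-- the symbols of `g (g r ^ 2 - κ A ^ 3)` are equidistributed -/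
theorem tot0 (h2 : (2 : K) ≠ 0) {g κ : K} (hg : g ≠ 0) (hκ : κ ≠ 0) :
    ∑ A : K, ∑ r : K, quadraticChar K (g * (g * r ^ 2 - κ * A ^ 3)) = 0 := by
  have h3 : ∀ A : K, ∑ r : K, quadraticChar K (g * (g * r ^ 2 - κ * A ^ 3)) =
      ∑ b : K, quadraticChar K (b ^ 2 - κ * g * A ^ 3) := by
    intro A
    refine Fintype.sum_equiv (Equiv.mulLeft₀ g hg) _ _ fun r => ?_
    congr 1
    simp only [Equiv.mulLeft₀_apply]
    ring
  have h4 : ∀ A : K, ∑ r : K, quadraticChar K (g * (g * r ^ 2 - κ * A ^ 3)) =
      -1 + if A = 0 then (Fintype.card K : ℤ) else 0 := by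
    intro A
    rw [h3]
    split_ifs with h
    · rw [h]
      have h5 : ∀ b : K, b ^ 2 - κ * g * 0 ^ 3 = b ^ 2 := fun b => by ring
      rw [Finset.sum_congr rfl fun b _ => by rw [h5 b], sum_sq]
      ring
    · rw [jac h2 (mul_ne_zero (mul_ne_zero hκ hg) (pow_ne_zero 3 h))]
      ring
  rw [Finset.sum_congr rfl fun A _ => h4 A, Finset.sum_add_distrib]
  simp

end

end Pool.Agent.Y290.SC
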