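import Pool.Agent.Y711.CDef
import Pool.Agent.Y153.SV.Loc
import Pool.Agent.Y290.SC.Fld

set_option autoImplicit false
set_option maxHeartbeats 1000000

/-!
Class conditions: symbols and counts at one prime.
-/

open Polynomial Classical

namespace Pool.Agent.Y290.SC

open Pool.Agent.Y711 Pool.Agent.W313.Hyp Pool.Agent.Y153.SV

section

variable {k : Type} [Field k]

theorem chi_congr {a b P : k[X]} (h : P ∣ a - b) : chi a P = chi b P := by
  have h1 : P ∣ a ↔ P ∣ b := by
    constructor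
    · intro h'
      have := dvd_sub h' h
      rwa [sub_sub_cancel] at this
    · intro h'
      have := dvd_add h h'
      rwa [sub_add_cancel] at this
  have h2 : (∃ s : k[X], P ∣ a - s ^ 2) ↔ ∃ s : k[X], P ∣ b - s ^ 2 := by
    constructor
    · rintro ⟨s, hs⟩
      refine ⟨s, ?_⟩
      have := dvd_sub hs h
      have e : a - s ^ 2 - (a - b) = b - s ^ 2 := by ring
      rwa [e] at this
    · rintro ⟨s, hs⟩
      refine ⟨s, ?_⟩
      have := dvd_add hs h
      have e : b - s ^ 2 + (a - b) = a - s ^ 2 := by ring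
      rwa [e] at this
  unfold chi
  simp only [h1, h2]

theorem chi_values (a P : k[X]) : chi a P = 0 ∨ chi a P = 1 ∨ chi a P = -1 := by
  unfold chi
  split_ifs
  · left; rfl
  · right; left; rfl
  · right; right; rfl

theorem chi_ne_zero {a P : k[X]} : chi a P ≠ 0 ↔ ¬ P ∣ a := by
  unfold chi
  split_ifs with h1 h2
  · simp [h1]
  · simp [h1]
  · simp [h1]

/-- the residue field -/
instance factP (P : MI k) : Fact (Irreducible P.1) := ⟨P.2.2⟩

/-! ### classes -/

theorem cls_one (W : MI k → Finset ℤ) (D : k[X]) : IsCls 1 W D := by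
  intro P hP
  exact absurd (isUnit_of_dvd_one hP) P.2.2.not_isUnit

theorem cls_mul {m n : k[X]} (W : MI k → Finset ℤ) (D : k[X]) :
    IsCls (m * n) W D ↔ IsCls m W D ∧ IsCls n W D := by
  constructor
  · intro h
    exact ⟨fun P hP => h P (hP.mul_right _), fun P hP => h P (hP.mul_left _)⟩
  · rintro ⟨h1, h2⟩ P hP
    rcases P.2.2.prime.dvd_or_dvd hP with h | h
    · exact h1 P h
    · exact h2 P h

theorem cls_dvd {m n : k[X]} (h : m ∣ n) {W : MI k → Finset ℤ} {D : k[X]} (hD : IsCls n W D) :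
    IsCls m W D := fun P hP => hD P (hP.trans h)

theorem cls_congr {n D D' : k[X]} (W : MI k → Finset ℤ) (h : n ∣ D - D') :
    IsCls n W D ↔ IsCls n W D' := by
  unfold IsCls
  refine forall_congr' fun P => ?_
  constructor
  · intro h1 hP
    rw [← chi_congr (hP.trans h)]
    exact h1 hP
  · intro h1 hP
    rw [chi_congr (hP.trans h)]
    exact h1 hP

theorem cls_prime (P : MI k) (W : MI k → Finset ℤ) (D : k[X]) :
    IsCls P.1 W D ↔ chi D P.1 ∈ W P := by
  constructor
  · intro h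
    exact h P dvd_rfl
  · intro h Q hQ
    rw [eq_of_dvd_MI hQ]
    exact h

theorem cls_cop {n D : k[X]} (hn : n ≠ 0) {W : MI k → Finset ℤ} (hW : ∀ P, W P ⊆ {1, -1})
    (h : IsCls n W D) : IsCoprime D n := by
  refine isCoprime_of_prime_dvd (fun h => hn h.2) fun P hP h1 h2 => ?_
  obtain ⟨P', hP', hd⟩ := exists_monic_irreducible_factor P hP.not_isUnit
  have h3 := h ⟨P', hP', hd.1⟩ (hd.2.trans h2)
  have h4 : chi D P' = 0 := by
    unfold chi
    rw [if_pos (hd.2.trans h1)]
  have h5 := hW _ h3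
  rw [h4] at h5
  simp at h5

end

section

variable {k : Type} [Field k] [Finite k]

theorem mk_surj_LT (P : MI k) (x : AdjoinRoot P.1) :
    ∃ r ∈ LT k P.1.natDegree, AdjoinRoot.mk P.1 r = x := by
  obtain ⟨p, rfl⟩ := AdjoinRoot.mk_surjective x
  refine ⟨p % P.1, mod_mem_LT _ P.2.1.ne_zero, ?_⟩
  rw [AdjoinRoot.mk_eq_mk]
  exact dvd_mod_sub p P.1

theorem finRF (P : MI k) : Finite (AdjoinRoot P.1) := by
  have h : Function.Surjective (fun r : (LT k P.1.natDegree) => AdjoinRoot.mk P.1 r.1) := by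
    intro x
    obtain ⟨r, hr, h⟩ := mk_surj_LT P x
    exact ⟨⟨r, hr⟩, h⟩
  exact Finite.of_surjective _ h

noncomputable instance ftRF (P : MI k) : Fintype (AdjoinRoot P.1) := by
  haveI := finRF P
  exact Fintype.ofFinite _

theorem sum_LT (P : MI k) {M : Type} [AddCommMonoid M] (F : AdjoinRoot P.1 → M) :
    ∑ r ∈ LT k P.1.natDegree, F (AdjoinRoot.mk P.1 r) = ∑ x : AdjoinRoot P.1, F x := by
  refine Finset.sum_bij (fun r _ => AdjoinRoot.mk P.1 r) ?_ ?_ ?_ ?_
  · intro r _
    exact Finset.mem_univ _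
  · intro r hr r' hr' h
    rw [AdjoinRoot.mk_eq_mk] at h
    exact eq_of_dvd_sub le_rfl (mem_LT.1 hr) (mem_LT.1 hr') h
  · intro x _
    obtain ⟨r, hr, h⟩ := mk_surj_LT P x
    exact ⟨r, hr, h⟩
  · intro r _
    rfl

theorem chi_eq (P : MI k) (a : k[X]) :
    chi a P.1 = quadraticChar (AdjoinRoot P.1) (AdjoinRoot.mk P.1 a) := by
  have h1 : P.1 ∣ a ↔ AdjoinRoot.mk P.1 a = 0 := AdjoinRoot.mk_eq_zero.symm
  have h2 : (∃ s : k[X], P.1 ∣ a - s ^ 2) ↔ IsSquare (AdjoinRoot.mk P.1 a) := by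
    constructor
    · rintro ⟨s, hs⟩
      refine ⟨AdjoinRoot.mk P.1 s, ?_⟩
      rw [← map_mul, AdjoinRoot.mk_eq_mk, ← sq]
      exact hs
    · rintro ⟨y, hy⟩
      obtain ⟨s, rfl⟩ := AdjoinRoot.mk_surjective y
      refine ⟨s, ?_⟩
      rw [← map_mul, AdjoinRoot.mk_eq_mk, ← sq] at hy
      exact hy
  rw [quadraticChar_apply]
  unfold quadraticCharFun chi
  simp only [h1, h2]

theorem chi_mul (P : MI k) (a b : k[X]) : chi (a * b) P.1 = chi a P.1 * chi b P.1 := by
  rw [chi_eq, chi_eq, chi_eq, map_mul, map_mul]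

theorem chi_sq (P : MI k) {a : k[X]} (h : ¬ P.1 ∣ a) : chi (a ^ 2) P.1 = 1 := by
  rw [chi_eq, map_pow]
  apply quadraticChar_sq_one'
  intro h1
  exact h (AdjoinRoot.mk_eq_zero.1 h1)

theorem two_RF (h2 : (2 : k) ≠ 0) (P : MI k) : (2 : AdjoinRoot P.1) ≠ 0 := by
  intro h
  apply h2
  have h3 : algebraMap k (AdjoinRoot P.1) 2 = 0 := by
    rw [map_ofNat]
    exact h
  exact (map_eq_zero _).1 h3

/-! ### counting -/

theorem sgn_count {α : Type} (S : Finset α) (f : α → ℤ)
    (hf : ∀ x, f x = 0 ∨ f x = 1 ∨ f x = -1) {s : ℤ} (hs : s = 1 ∨ s = -1) :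
    2 * ((S.filter fun x => f x = s).card : ℤ) =
      ((S.filter fun x => f x ≠ 0).card : ℤ) + s * ∑ x ∈ S, f x := by
  rw [Finset.card_filter, Finset.card_filter]
  push_cast
  rw [Finset.mul_sum, Finset.mul_sum, ← Finset.sum_add_distrib]
  refine Finset.sum_congr rfl fun x _ => ?_
  rcases hf x with h | h | h <;> rcases hs with rfl | rfl <;> simp [h]

theorem cls_count {α : Type} (S : Finset α) (f : α → ℤ)
    (hf : ∀ x, f x = 0 ∨ f x = 1 ∨ f x = -1) (h0 : ∑ x ∈ S, f x = 0) {W : Finset ℤ}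
    (hW : W ⊆ {1, -1}) :
    2 * (S.filter fun x => f x ∈ W).card = W.card * (S.filter fun x => f x ≠ 0).card := by
  have h1 : (S.filter fun x => f x ∈ W).card = ∑ s ∈ W, (S.filter fun x => f x = s).card := by
    rw [Finset.card_eq_sum_card_fiberwise (f := f) (t := W) (fun x hx => by
      rw [Finset.mem_coe, Finset.mem_filter] at hx
      exact hx.2)]
    refine Finset.sum_congr rfl fun s hs => ?_
    rw [Finset.filter_filter]
    refine congrArg Finset.card (Finset.filter_congr fun x _ => ?_)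
    constructor
    · exact fun h => h.2
    · intro h
      exact ⟨by rw [h]; exact hs, h⟩
  rw [h1, Finset.mul_sum]
  have h2 : ∀ s ∈ W, 2 * (S.filter fun x => f x = s).card = (S.filter fun x => f x ≠ 0).card := by
    intro s hs
    have h3 := hW hs
    rw [Finset.mem_insert, Finset.mem_singleton] at h3
    have h4 := sgn_count S f hf h3
    rw [h0, mul_zero, add_zero] at h4
    exact_mod_cast h4
  rw [Finset.sum_congr rfl h2, Finset.sum_const, smul_eq_mul]

/-- the number of the residues `w` with `c w` in the class -/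
noncomputable def cW (W : MI k → Finset ℤ) (n c : k[X]) : ℕ :=
  ((LT k n.natDegree).filter fun w => IsCls n W (c * w)).card

theorem cW_prime (h2 : (2 : k) ≠ 0) (P : MI k) {W : MI k → Finset ℤ} (hW : W P ⊆ {1, -1})
    {c : k[X]} (hc : IsCoprime c P.1) : 2 * cW W P.1 c = (W P).card * phi P.1 := by
  have h0 : ∑ w ∈ LT k P.1.natDegree, chi (c * w) P.1 = 0 := by
    have h3 : ∀ w : k[X], chi (c * w) P.1 = chi c P.1 *
        quadraticChar (AdjoinRoot P.1) (AdjoinRoot.mk P.1 w) := by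
      intro w
      rw [chi_mul, chi_eq P w]
    rw [Finset.sum_congr rfl fun w _ => h3 w, ← Finset.mul_sum,
      sum_LT P (fun x => quadraticChar (AdjoinRoot P.1) x),
      quadraticChar_sum_zero (two_ne (two_RF h2 P)), mul_zero]
  have h1 := cls_count (LT k P.1.natDegree) (fun w => chi (c * w) P.1)
    (fun w => chi_values _ _) h0 hW
  unfold cW phi
  have h3 : ((LT k P.1.natDegree).filter fun w => IsCls P.1 W (c * w)) =
      (LT k P.1.natDegree).filter fun w => chi (c * w) P.1 ∈ W P :=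
    Finset.filter_congr fun w _ => cls_prime P W _
  have h4 : ((LT k P.1.natDegree).filter fun w => chi (c * w) P.1 ≠ 0) =
      (LT k P.1.natDegree).filter fun w => IsCoprime w P.1 := by
    refine Finset.filter_congr fun w _ => ?_
    rw [chi_ne_zero]
    constructor
    · intro h
      rcases cop_or_dvd P.2.2 w with h5 | h5
      · exact h5.symm
      · exact absurd (h5.mul_left _) h
    · intro h h5
      exact P.2.2.not_isUnit ((hc.mul_left h).isUnit_of_dvd' h5 dvd_rfl)
  rw [h3, h1, h4]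

/-- the number of the `r` with `G (G r ^ 2 - κ A ^ 3)` in the class -/
noncomputable def hW (W : MI k → Finset ℤ) (n G : k[X]) (κ : k) (A : k[X]) : ℕ :=
  ((LT k n.natDegree).filter fun r => IsCls n W (G * (G * r ^ 2 - C κ * A ^ 3))).card

theorem hW_prime (h2 : (2 : k) ≠ 0) (P : MI k) {W : MI k → Finset ℤ} (hWP : W P ⊆ {1, -1})
    {G : k[X]} (hG : IsCoprime G P.1) {κ : k} (hκ : κ ≠ 0) :
    2 * ∑ A ∈ LT k P.1.natDegree, hW W P.1 G κ A =
      (W P).card * (Nat.card k ^ P.1.natDegree * phi P.1) := by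
  have hg : AdjoinRoot.mk P.1 G ≠ 0 := by
    intro h
    exact P.2.2.not_isUnit (hG.isUnit_of_dvd' (AdjoinRoot.mk_eq_zero.1 h) dvd_rfl)
  have hk : AdjoinRoot.mk P.1 (C κ) ≠ 0 := by
    intro h
    have h3 := AdjoinRoot.mk_eq_zero.1 h
    exact P.2.2.not_isUnit (isUnit_of_dvd_unit h3 (isUnit_C.2 (isUnit_iff_ne_zero.2 hκ)))
  have h0 : ∑ x ∈ LT k P.1.natDegree ×ˢ LT k P.1.natDegree,
      chi (G * (G * x.2 ^ 2 - C κ * x.1 ^ 3)) P.1 = 0 := by
    rw [Finset.sum_product]
    set Fn : AdjoinRoot P.1 → AdjoinRoot P.1 → ℤ := fun A' r' =>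
      quadraticChar (AdjoinRoot P.1) (AdjoinRoot.mk P.1 G *
          (AdjoinRoot.mk P.1 G * r' ^ 2 - AdjoinRoot.mk P.1 (C κ) * A' ^ 3)) with hFn
    have h3 : ∀ A r : k[X], chi (G * (G * r ^ 2 - C κ * A ^ 3)) P.1 =
        Fn (AdjoinRoot.mk P.1 A) (AdjoinRoot.mk P.1 r) := by
      intro A r
      rw [chi_eq, hFn]
      simp only [map_mul, map_sub, map_pow]
    have h4 : ∀ A ∈ LT k P.1.natDegree, ∑ r ∈ LT k P.1.natDegree,
        chi (G * (G * (A, r).2 ^ 2 - C κ * (A, r).1 ^ 3)) P.1 =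
        ∑ r' : AdjoinRoot P.1, Fn (AdjoinRoot.mk P.1 A) r' := by
      intro A _
      rw [← sum_LT P (fun r' => Fn (AdjoinRoot.mk P.1 A) r')]
      exact Finset.sum_congr rfl fun r _ => h3 A r
    rw [Finset.sum_congr rfl h4, sum_LT P (fun A' => ∑ r' : AdjoinRoot P.1, Fn A' r')]
    exact tot0 (two_RF h2 P) hg hk
  have h1 := cls_count (LT k P.1.natDegree ×ˢ LT k P.1.natDegree)
    (fun x => chi (G * (G * x.2 ^ 2 - C κ * x.1 ^ 3)) P.1)
    (fun w => chi_values _ _) h0 hWP
  have h3 : ∑ A ∈ LT k P.1.natDegree, hW W P.1 G κ A =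
      ((LT k P.1.natDegree ×ˢ LT k P.1.natDegree).filter fun x =>
        chi (G * (G * x.2 ^ 2 - C κ * x.1 ^ 3)) P.1 ∈ W P).card := by
    rw [Finset.card_filter, Finset.sum_product]
    refine Finset.sum_congr rfl fun A _ => ?_
    unfold hW
    rw [Finset.card_filter]
    refine Finset.sum_congr rfl fun r _ => ?_
    simp only [cls_prime]
  have h4 : ((LT k P.1.natDegree ×ˢ LT k P.1.natDegree).filter fun x =>
        chi (G * (G * x.2 ^ 2 - C κ * x.1 ^ 3)) P.1 ≠ 0).card =
      ∑ A ∈ LT k P.1.natDegree, hc P.1 G κ A := by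
    rw [Finset.card_filter, Finset.sum_product]
    refine Finset.sum_congr rfl fun A _ => ?_
    unfold hc
    rw [Finset.card_filter]
    refine Finset.sum_congr rfl fun r _ => ?_
    have h5 : chi (G * (G * r ^ 2 - C κ * A ^ 3)) P.1 ≠ 0 ↔
        IsCoprime (G * r ^ 2 - C κ * A ^ 3) P.1 := by
      rw [chi_ne_zero]
      constructor
      · intro h
        rcases cop_or_dvd P.2.2 (G * r ^ 2 - C κ * A ^ 3) with h5 | h5
        · exact h5.symm
        · exact absurd (h5.mul_left _) h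
      · intro h h5
        exact P.2.2.not_isUnit ((hG.mul_left h).isUnit_of_dvd' h5 dvd_rfl)
    simp only [h5]
  rw [h3, h1, h4, hc_prime P hG hκ]

end

end Pool.Agent.Y290.SC
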