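import Pool.Agent.Y290.SC.Pair
import Pool.Agent.Y153.SV.Fib

set_option autoImplicit false
set_option maxHeartbeats 1000000

/-!
Class conditions: the number of the solutions with given `G`, `Q`, `deg A`.
-/

open Polynomial Classical

namespace Pool.Agent.Y290.SC

open Pool.Agent.Y711 Pool.Agent.W313.Hyp Pool.Agent.Y153.SV

section

variable {k : Type} [Field k] [Finite k]

theorem mem_SFc {g : ℕ} {m n : k[X]} {W : MI k → Finset ℤ} {x : k[X] × k[X] × k[X] × k[X]} :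
    x ∈ SFc g m n W ↔
      ∃ D, IsD g m D ∧ IsSol g D x.1 x.2.1 x.2.2.1 x.2.2.2 ∧ IsCls n W D := by
  unfold SFc
  rw [Finset.mem_filter, mem_SF]
  constructor
  · exact fun h => h.2
  · rintro ⟨D, h1, h2, h3⟩
    exact ⟨⟨D, h1, h2⟩, D, h1, h2, h3⟩

theorem SFc_sub (g : ℕ) (m n : k[X]) (W : MI k → Finset ℤ) : SFc g m n W ⊆ SF g m :=
  Finset.filter_subset _ _

theorem cls_sq {n Q D : k[X]} {W : MI k → Finset ℤ} (hQ : IsCoprime Q n) (h : IsCls n W D) :
    IsCls n W (D * Q ^ 2) := by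
  intro P hP
  have h1 : ¬ P.1 ∣ Q := fun h2 => P.2.2.not_isUnit (hQ.isUnit_of_dvd' h2 hP)
  rw [chi_mul, chi_sq P h1, mul_one]
  exact h P hP

theorem fib_auxW (h2 : (2 : k) ≠ 0) {W : MI k → Finset ℤ} {g : ℕ} {m n : k[X]}
    (hm : m.Monic) (hn : n.Monic)
    (hsq : Squarefree (m * n)) (G Q : k[X]) (a ρ : ℕ)
    (hint : ∀ A B B' D D' : k[X], A.natDegree = a → IsD g m D → IsSol g D G A B Q → IsD g m D' →
      IsSol g D' G A B' Q → (B - B').degree < ρ)
    (hne : ((SFc g m n W).filter fun x => x.1 = G ∧ x.2.2.2 = Q ∧ x.2.1.natDegree = a).Nonempty)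
    (ha : (Q * mo m G * mgcd G m * mo n Q).natDegree ≤ a)
    (hρ : (Q ^ 2 * mo m G * (mo m G * mgcd Q n) * mo n Q).natDegree ≤ ρ) :
    ((SFc g m n W).filter fun x => x.1 = G ∧ x.2.2.2 = Q ∧ x.2.1.natDegree = a).card ≤
      Nat.card k ^ (a - (Q * mo m G * mgcd G m * mo n Q).natDegree) *
        (Nat.card k ^ (ρ - (Q ^ 2 * mo m G * (mo m G * mgcd Q n) * mo n Q).natDegree) *
          (phi (Q * mo m G) * phi (mgcd G m) *
            (phi (mo m G) * cW W (mgcd Q n) (G * mo m G)) *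
            ∑ A ∈ LT k (mo n Q).natDegree,
              hW W (mo n Q) G (kap k (G.natDegree + a)) A)) := by
  obtain ⟨x0, hx0⟩ := hne
  rw [Finset.mem_filter, mem_SFc] at hx0
  obtain ⟨⟨D0, hD0, hs0, hDn0⟩, hG0, hQ0, hA0⟩ := hx0
  rw [hG0, hQ0] at hs0
  obtain ⟨D₁, hGD, _, _, f1, f2, _, _, _⟩ := hs0.facts hD0
  have hsn : Squarefree n := hsq.squarefree_of_dvd (dvd_mul_left _ _)
  have hmm := mo_mul hm.ne_zero G
  have hmo0 : mo m G ≠ 0 := (mo_monic hm G).ne_zero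
  have hmg0 : mgcd G m ≠ 0 := (mgcd_monic hm.ne_zero).ne_zero
  have hnn := mo_mul hn.ne_zero Q
  have hmoQ := mo_monic hn Q
  have hsmoQ : Squarefree (mo n Q) := hsn.squarefree_of_dvd (Dvd.intro _ hnn)
  have hmnc : IsCoprime m n := by
    refine isCoprime_of_prime_dvd (fun h => hm.ne_zero h.1) fun P hP h1 h2 => ?_
    exact hP.not_isUnit (hsq P (mul_dvd_mul h1 h2))
  have hc1 : IsCoprime (mo m G) (mgcd Q n) :=
    (hmnc.of_isCoprime_of_dvd_left (Dvd.intro _ hmm)).of_isCoprime_of_dvd_right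
      (mgcd_dvd_right Q n)
  have hmoQn : mo n Q ∣ n := Dvd.intro _ hnn
  have hcn : IsCoprime (Q * mo m G * mgcd G m) (mo n Q) := by
    rw [mul_assoc, hmm]
    exact (mo_cop hsn Q).mul_left (hmnc.of_isCoprime_of_dvd_right hmoQn)
  have hpc := pair_countW (c := G * mo m G) h2 W hs0.Q0 hmo0 hmg0
    (mgcd_monic (a := Q) hn.ne_zero).ne_zero hmoQ.ne_zero
    (mgcd_dvd_left Q n) hc1 f1 f2 hcn
    (kap_ne (k := k) (G.natDegree + a)) ha hρ (Bo g m G Q)
  rw [← hpc, Finset.card_eq_sum_card_fiberwise (f := fun x => x.2.1) (t := MD k a) (by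
    intro x hx
    rw [Finset.mem_coe, Finset.mem_filter, mem_SFc] at hx
    obtain ⟨⟨D, hD, hs, _⟩, _, _, h3⟩ := hx
    rw [Finset.mem_coe, mem_MD]
    exact ⟨hs.hA, h3⟩)]
  apply Finset.sum_le_sum
  intro A hA
  rw [mem_MD] at hA
  rw [Finset.filter_filter]
  rcases Finset.eq_empty_or_nonempty ((SFc g m n W).filter fun x =>
    (x.1 = G ∧ x.2.2.2 = Q ∧ x.2.1.natDegree = a) ∧ x.2.1 = A) with he | hne
  · rw [he, Finset.card_empty]
    exact Nat.zero_le _
  · obtain ⟨x1, hx1⟩ := hne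
    rw [Finset.mem_filter, mem_SFc] at hx1
    obtain ⟨⟨D1, hD1, hs1, _⟩, ⟨hG1, hQ1, _⟩, hA1⟩ := hx1
    rw [hG1, hQ1, hA1] at hs1
    obtain ⟨_, _, _, _, _, _, f3, _, _⟩ := hs1.facts hD1
    rw [if_pos f3]
    have hex : ∃ B D, IsD g m D ∧ IsSol g D G A B Q := ⟨_, D1, hD1, hs1⟩
    obtain ⟨D2, hD2, hs2⟩ : ∃ D, IsD g m D ∧ IsSol g D G A (Bo g m G Q A) Q := by
      unfold Bo
      rw [dif_pos hex]
      exact hex.choose_spec
    refine Finset.card_le_card_of_injOn (fun x => x.2.2.1 - Bo g m G Q A) ?_ ?_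
    · intro x hx
      rw [Finset.mem_coe, Finset.mem_filter, mem_SFc] at hx
      obtain ⟨⟨D, hD, hs, hDn⟩, ⟨hG3, hQ3, _⟩, hA3⟩ := hx
      rw [hG3, hQ3, hA3] at hs
      obtain ⟨D₁, hDD, _, heq, _, _, _, f4, f5⟩ := hs.facts hD
      rw [hA.2] at f4 f5 heq
      rw [Finset.mem_coe, Finset.mem_filter, mem_LT]
      refine ⟨hint A _ _ D D2 hA.2 hD hs hD2 hs2, ?_⟩
      dsimp only
      rw [add_sub_cancel]
      have hN0 : Q ^ 2 * mo m G ≠ 0 := mul_ne_zero (pow_ne_zero 2 hs.Q0) hmo0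
      refine ⟨⟨f4, f5, ?_⟩, ?_⟩
      · obtain ⟨D₂, hD₂⟩ := f4
        rw [hD₂, mul_div_cancel_left₀ _ hN0]
        have h3 : D₁ = mo m G * D₂ := by
          apply mul_right_cancel₀ (pow_ne_zero 2 hs.Q0)
          rw [heq, hD₂]
          ring
        have h4 : G * mo m G * D₂ = D := by
          rw [hDD, h3]
          ring
        rw [h4]
        exact cls_dvd (mgcd_dvd_right Q n) hDn
      · rw [← heq]
        have h4 : G * (D₁ * Q ^ 2) = D * Q ^ 2 := by
          rw [hDD]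
          ring
        rw [h4]
        exact cls_sq (mo_cop hsn Q) (cls_dvd hmoQn hDn)
    · intro x hx y hy hxy
      rw [Finset.mem_coe, Finset.mem_filter] at hx hy
      obtain ⟨_, ⟨hG3, hQ3, _⟩, hA3⟩ := hx
      obtain ⟨_, ⟨hG4, hQ4, _⟩, hA4⟩ := hy
      dsimp only at hxy
      have hB : x.2.2.1 = y.2.2.1 := by linear_combination hxy
      ext1
      · rw [hG3, hG4]
      · ext1
        · rw [hA3, hA4]
        · ext1
          · exact hB
          · rw [hQ3, hQ4]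

theorem fib_realW (h2 : (2 : k) ≠ 0) {W : MI k → Finset ℤ} (hWs : ∀ P, W P ⊆ {1, -1})
    {g : ℕ} {m n : k[X]} (hm : m.Monic) (hn : n.Monic)
    (hsq : Squarefree (m * n)) (G Q : k[X]) (a ρ : ℕ)
    (hint : ∀ A B B' D D' : k[X], A.natDegree = a → IsD g m D → IsSol g D G A B Q → IsD g m D' →
      IsSol g D' G A B' Q → (B - B').degree < ρ)
    (hne : ((SFc g m n W).filter fun x => x.1 = G ∧ x.2.2.2 = Q ∧ x.2.1.natDegree = a).Nonempty)
    (ha : Q.natDegree + m.natDegree + n.natDegree ≤ a)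
    (hρ : 2 * Q.natDegree + 2 * m.natDegree + 2 * n.natDegree ≤ ρ) :
    (((SFc g m n W).filter fun x => x.1 = G ∧ x.2.2.2 = Q ∧ x.2.1.natDegree = a).card : ℝ) ≤
      (Nat.card k : ℝ) ^ a * (Nat.card k : ℝ) ^ ρ / (Nat.card k : ℝ) ^ (2 * Q.natDegree) *
        (wt m G * (rphi n * (if IsCoprime Q (mgcd G m) then rphi (mgcd Q n) else 0))) *
          rw2 n W := by
  have hne' := hne
  obtain ⟨x0, hx0⟩ := hne'
  rw [Finset.mem_filter, mem_SFc] at hx0
  obtain ⟨⟨D0, hD0, hs0, hDn0⟩, hG0, hQ0, hA0⟩ := hx0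
  rw [hG0, hQ0] at hs0
  obtain ⟨D₁, hGD, _, _, f1, f2, _, _, _⟩ := hs0.facts hD0
  have hsm : Squarefree m := hsq.squarefree_of_dvd (dvd_mul_right _ _)
  have hsn : Squarefree n := hsq.squarefree_of_dvd (dvd_mul_left _ _)
  have hmm := mo_mul hm.ne_zero G
  have hmoM := mo_monic hm G
  have hmo0 : mo m G ≠ 0 := hmoM.ne_zero
  have hmg0 : mgcd G m ≠ 0 := (mgcd_monic hm.ne_zero).ne_zero
  have hnn := mo_mul hn.ne_zero Q
  have hmoQ := mo_monic hn Q
  have hQ := hs0.Q0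
  have hn10 : mgcd Q n ≠ 0 := (mgcd_monic (a := Q) hn.ne_zero).ne_zero
  have hdm : m.natDegree = (mo m G).natDegree + (mgcd G m).natDegree := by
    conv_lhs => rw [← hmm]
    exact natDegree_mul hmo0 hmg0
  have hdn : n.natDegree = (mo n Q).natDegree + (mgcd Q n).natDegree := by
    conv_lhs => rw [← hnn]
    exact natDegree_mul hmoQ.ne_zero hn10
  have hmnc : IsCoprime m n := by
    refine isCoprime_of_prime_dvd (fun h => hm.ne_zero h.1) fun P hP h1 h2 => ?_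
    exact hP.not_isUnit (hsq P (mul_dvd_mul h1 h2))
  have e1 : (Q * mo m G * mgcd G m * mo n Q).natDegree =
      Q.natDegree + m.natDegree + (mo n Q).natDegree := by
    rw [mul_assoc Q, hmm, natDegree_mul (mul_ne_zero hQ hm.ne_zero) hmoQ.ne_zero,
      natDegree_mul hQ hm.ne_zero]
  have e2 : (Q ^ 2 * mo m G * (mo m G * mgcd Q n) * mo n Q).natDegree =
      2 * Q.natDegree + 2 * (mo m G).natDegree + n.natDegree := by
    rw [natDegree_mul (mul_ne_zero (mul_ne_zero (pow_ne_zero 2 hQ) hmo0) (mul_ne_zero hmo0 hn10))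
      hmoQ.ne_zero, natDegree_mul (mul_ne_zero (pow_ne_zero 2 hQ) hmo0) (mul_ne_zero hmo0 hn10),
      natDegree_mul (pow_ne_zero 2 hQ) hmo0, natDegree_mul hmo0 hn10, natDegree_pow, hdn]
    ring
  have h3 := fib_auxW h2 hm hn hsq G Q a ρ hint hne (by rw [e1]; omega) (by rw [e2]; omega)
  rw [e1, e2] at h3
  have hcop : IsCoprime (mo m G) (mgcd G m) :=
    ((mo_cop hsm G).of_isCoprime_of_dvd_left (mgcd_dvd_left G m)).symm
  have h4 : phi m = phi (mo m G) * phi (mgcd G m) := by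
    conv_lhs => rw [← hmm]
    exact phi_mul hmo0 hmg0 hcop
  have hcopn : IsCoprime (mo n Q) (mgcd Q n) :=
    ((mo_cop hsn Q).of_isCoprime_of_dvd_left (mgcd_dvd_left Q n)).symm
  have h4n : phi n = phi (mo n Q) * phi (mgcd Q n) := by
    conv_lhs => rw [← hnn]
    exact phi_mul hmoQ.ne_zero hn10 hcopn
  have hc1 : IsCoprime (mo m G) (mgcd Q n) :=
    (hmnc.of_isCoprime_of_dvd_left (Dvd.intro _ hmm)).of_isCoprime_of_dvd_right
      (mgcd_dvd_right Q n)
  have h6 : phi (mo m G * mgcd Q n) = phi (mo m G) * phi (mgcd Q n) := phi_mul hmo0 hn10 hc1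
  -- the sharper bound
  obtain ⟨Q', hQ'⟩ := mgcd_dvd_left Q n
  have hQ'0 : Q' ≠ 0 := by
    rintro rfl
    rw [mul_zero] at hQ'
    exact hQ hQ'
  have hdQ : Q.natDegree = (mgcd Q n).natDegree + Q'.natDegree := by
    conv_lhs => rw [hQ']
    exact natDegree_mul hn10 hQ'0
  have h5 : phi (Q * mo m G) ≤ Nat.card k ^ Q'.natDegree * (phi (mo m G) * phi (mgcd Q n)) := by
    rw [← h6]
    have h7 : Q * mo m G = Q' * (mo m G * mgcd Q n) := by
      conv_lhs => rw [hQ']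
      ring
    rw [h7]
    exact phi_mul_le hQ'0 (mul_ne_zero hmo0 hn10)
  have hq0 : (0 : ℝ) < Nat.card k := by exact_mod_cast Nat.card_pos
  have hq : (Nat.card k : ℝ) ≠ 0 := hq0.ne'
  have hGcn : IsCoprime G n :=
    (cls_cop hn.ne_zero hWs hDn0).of_isCoprime_of_dvd_left (hGD ▸ dvd_mul_right _ _)
  have hmn1 : IsCoprime (mo m G) (mgcd Q n) :=
    (hmnc.of_isCoprime_of_dvd_left (Dvd.intro _ hmm)).of_isCoprime_of_dvd_right
      (mgcd_dvd_right Q n)
  have hcWe : (cW W (mgcd Q n) (G * mo m G) : ℝ) = phi (mgcd Q n) * rw2 (mgcd Q n) W :=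
    cW_eq h2 hWs (G * mo m G) (mgcd Q n) (mgcd_monic (a := Q) hn.ne_zero)
      (hsn.squarefree_of_dvd (mgcd_dvd_right Q n))
      ((hGcn.of_isCoprime_of_dvd_right (mgcd_dvd_right Q n)).mul_left hmn1)
  have hhWe : ((∑ A ∈ LT k (mo n Q).natDegree, hW W (mo n Q) G (kap k (G.natDegree + a)) A : ℕ)
      : ℝ) = (Nat.card k : ℝ) ^ (mo n Q).natDegree * phi (mo n Q) * rw2 (mo n Q) W :=
    hW_sum h2 hWs G (kap_ne _) (mo n Q) hmoQ
      (hsn.squarefree_of_dvd (Dvd.intro _ hnn))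
      (hGcn.of_isCoprime_of_dvd_right (Dvd.intro _ hnn))
  have hrwe : rw2 n W = rw2 (mo n Q) W * rw2 (mgcd Q n) W := by
    conv_lhs => rw [← hnn]
    exact rw2_mul W hmoQ.ne_zero hn10 hcopn
  have h3' : (((SFc g m n W).filter fun x => x.1 = G ∧ x.2.2.2 = Q ∧
      x.2.1.natDegree = a).card : ℝ) ≤
      ((Nat.card k : ℝ) ^ (a - (Q.natDegree + m.natDegree + (mo n Q).natDegree)) *
        ((Nat.card k : ℝ) ^ (ρ - (2 * Q.natDegree + 2 * (mo m G).natDegree + n.natDegree)) *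
          (phi (Q * mo m G) * phi (mgcd G m) * phi (mo m G * mgcd Q n) *
            ((Nat.card k : ℝ) ^ (mo n Q).natDegree * phi (mo n Q))))) * rw2 n W := by
    have h3r : (((SFc g m n W).filter fun x => x.1 = G ∧ x.2.2.2 = Q ∧
      x.2.1.natDegree = a).card : ℝ) ≤
      (Nat.card k : ℝ) ^ (a - (Q.natDegree + m.natDegree + (mo n Q).natDegree)) *
        ((Nat.card k : ℝ) ^ (ρ - (2 * Q.natDegree + 2 * (mo m G).natDegree + n.natDegree)) *
          (phi (Q * mo m G) * phi (mgcd G m) *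
            (phi (mo m G) * cW W (mgcd Q n) (G * mo m G)) *
            ((∑ A ∈ LT k (mo n Q).natDegree,
              hW W (mo n Q) G (kap k (G.natDegree + a)) A : ℕ) : ℝ))) := by
      exact_mod_cast h3
    refine h3r.trans (le_of_eq ?_)
    rw [hcWe, hhWe, hrwe, h6]
    push_cast
    ring
  have h5' : (phi (Q * mo m G) : ℝ) ≤
      (Nat.card k : ℝ) ^ Q'.natDegree * (phi (mo m G) * phi (mgcd Q n)) := by
    exact_mod_cast h5
  have h6' : (phi (mo m G * mgcd Q n) : ℝ) = phi (mo m G) * phi (mgcd Q n) := by exact_mod_cast h6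
  refine h3'.trans (mul_le_mul_of_nonneg_right ?_ (rw2_nonneg W n))
  rw [if_pos f2.of_mul_left_left, pow_sub₀ _ hq (by omega), pow_sub₀ _ hq (by omega), h6']
  have h4' : (phi m : ℝ) = phi (mo m G) * phi (mgcd G m) := by exact_mod_cast h4
  have h4n' : (phi n : ℝ) = phi (mo n Q) * phi (mgcd Q n) := by exact_mod_cast h4n
  have h8 : (Nat.card k : ℝ) ^ a * (Nat.card k : ℝ) ^ ρ / (Nat.card k : ℝ) ^ (2 * Q.natDegree) *
        (wt m G * (rphi n * rphi (mgcd Q n))) =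
      (Nat.card k : ℝ) ^ a *
        ((Nat.card k : ℝ) ^ (Q.natDegree + m.natDegree + (mo n Q).natDegree))⁻¹ *
      ((Nat.card k : ℝ) ^ ρ *
        ((Nat.card k : ℝ) ^ (2 * Q.natDegree + 2 * (mo m G).natDegree + n.natDegree))⁻¹ *
      ((Nat.card k : ℝ) ^ Q'.natDegree * (phi (mo m G) * phi (mgcd Q n)) * phi (mgcd G m) *
        (phi (mo m G) * phi (mgcd Q n)) *
            ((Nat.card k : ℝ) ^ (mo n Q).natDegree * phi (mo n Q)))) := by
    unfold wt rphi
    rw [h4', h4n', pow_add _ (Q.natDegree + m.natDegree), pow_add _ Q.natDegree,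
      pow_add _ (2 * Q.natDegree + 2 * (mo m G).natDegree), pow_add _ (2 * Q.natDegree),
      show (Nat.card k : ℝ) ^ Q.natDegree =
        (Nat.card k : ℝ) ^ (mgcd Q n).natDegree * (Nat.card k : ℝ) ^ Q'.natDegree by
          rw [← pow_add, hdQ]]
    field_simp
  rw [h8]
  exact mono_aux (mul_nonneg (pow_nonneg hq0.le _) (inv_nonneg.2 (pow_nonneg hq0.le _)))
    (mul_nonneg (pow_nonneg hq0.le _) (inv_nonneg.2 (pow_nonneg hq0.le _)))
    (Nat.cast_nonneg _) (mul_nonneg (Nat.cast_nonneg _) (Nat.cast_nonneg _))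
    (mul_nonneg (pow_nonneg hq0.le _) (Nat.cast_nonneg _)) h5'

end

end Pool.Agent.Y290.SC
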