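import Pool.Agent.Y290.SC.Fib
import Pool.Agent.Y153.SV.GA

set_option autoImplicit false
set_option maxHeartbeats 1000000

/-!
Class conditions: the number of the solutions with given `G`, `deg A`.
-/

open Polynomial Classical

namespace Pool.Agent.Y290.SC

open Pool.Agent.Y711 Pool.Agent.W313.Hyp Pool.Agent.Y153.SV

section

variable {k : Type} [Field k] [Finite k]

theorem GA_sharpW (h2 : (2 : k) ≠ 0) {W : MI k → Finset ℤ} (hWs : ∀ P, W P ⊆ {1, -1})
    {g : ℕ} {m n : k[X]} (hm : m.Monic) (hn : n.Monic)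
    (hsq : Squarefree (m * n)) (hg : 4 * (m.natDegree + n.natDegree) ≤ g) (G : k[X])
    (a : ℕ) (hla : 2 * g + 2 + 2 * (m.natDegree + n.natDegree) ≤ 3 * a) :
    (((SFc g m n W).filter fun x => x.1 = G ∧ x.2.1.natDegree = a).card : ℝ) ≤
      (Nat.card k : ℝ) ^ (a + g + 1) / (Nat.card k : ℝ) ^ G.natDegree * wG m n G * rw2 n W := by
  have hq0 : (0 : ℝ) < Nat.card k := by exact_mod_cast Nat.card_pos
  have hq : (Nat.card k : ℝ) ≠ 0 := hq0.ne'
  have hw := wG_nonneg m n G
  have hsm : Squarefree m := hsq.squarefree_of_dvd (dvd_mul_right _ _)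
  have hsn : Squarefree n := hsq.squarefree_of_dvd (dvd_mul_left _ _)
  have hmnc : IsCoprime m n := by
    refine isCoprime_of_prime_dvd (fun h => hm.ne_zero h.1) fun P hP h1 h2 => ?_
    exact hP.not_isUnit (hsq P (mul_dvd_mul h1 h2))
  have hmg := mgcd_monic (a := G) hm.ne_zero
  have hmgn : IsCoprime (mgcd G m) n := hmnc.of_isCoprime_of_dvd_left (mgcd_dvd_right G m)
  have hmgd : (mgcd G m).natDegree ≤ m.natDegree :=
    natDegree_le_of_dvd (mgcd_dvd_right G m) hm.ne_zero
  have hrn : 0 ≤ rphi n := rphi_nonneg n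
  have hrw := rw2_nonneg W n
  have hwt := wt_nonneg m G
  have hif : ∀ Q : k[X], 0 ≤ (if IsCoprime Q (mgcd G m) then rphi (mgcd Q n) else 0) := by
    intro Q
    split_ifs
    · exact rphi_nonneg _
    · exact le_rfl
  rcases Finset.eq_empty_or_nonempty ((SFc g m n W).filter fun x => x.1 = G ∧ x.2.1.natDegree = a)
    with he | hne
  · rw [he, Finset.card_empty, Nat.cast_zero]
    exact mul_nonneg (mul_nonneg (div_nonneg (pow_nonneg hq0.le _) (pow_nonneg hq0.le _)) hw) hrw
  obtain ⟨x0, hx0⟩ := hne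
  rw [Finset.mem_filter, mem_SFc] at hx0
  obtain ⟨⟨D0, hD0, hs0, _⟩, hG0, hA0⟩ := hx0
  rw [hG0] at hs0
  have hdeg0 := hs0.deg
  rw [hA0] at hdeg0
  rcases Nat.even_or_odd (G.natDegree + a) with hev | hodd
  · -- even case
    obtain ⟨_, e1, e2⟩ := hs0.even_deg hD0 (by rw [hA0]; exact hev)
    rw [hA0] at e1 e2
    obtain ⟨r, hr⟩ := hev
    -- `cm` is the maximal degree
    obtain ⟨cm, hcm⟩ : ∃ cm, 2 * cm + 2 * g + 2 = 3 * a + G.natDegree :=
      ⟨(3 * a + G.natDegree - 2 * g - 2) / 2, by omega⟩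
    rw [Finset.card_eq_sum_card_fiberwise (f := fun x => x.2.2.2) (t := LT k (cm + 1)) (by
      intro x hx
      rw [Finset.mem_coe, Finset.mem_filter, mem_SFc] at hx
      obtain ⟨⟨D, hD, hs, _⟩, h3, h4⟩ := hx
      rw [h3] at hs
      obtain ⟨_, e3, e4⟩ := hs.even_deg hD (by rw [h4]; exact ⟨r, hr⟩)
      rw [h4] at e3 e4
      rw [Finset.mem_coe, mem_LT]
      show x.2.2.2.degree < _
      exact lt_of_natDegree (by omega))]
    push_cast
    have hterm : ∀ Q ∈ LT k (cm + 1), ((((SFc g m n W).filter fun x => x.1 = G ∧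
        x.2.1.natDegree = a).filter fun x => x.2.2.2 = Q).card : ℝ) ≤
        (Nat.card k : ℝ) ^ a * ((Nat.card k : ℝ) ^ (2 * g + 1) / (Nat.card k : ℝ) ^ (3 * r)) *
          (wt m G * (rphi n * (if IsCoprime Q (mgcd G m) then rphi (mgcd Q n) else 0))) *
          rw2 n W := by
      intro Q _
      rw [Finset.filter_filter]
      have hcongr : ((SFc g m n W).filter fun x => (x.1 = G ∧ x.2.1.natDegree = a) ∧ x.2.2.2 = Q) =
          ((SFc g m n W).filter fun x => x.1 = G ∧ x.2.2.2 = Q ∧ x.2.1.natDegree = a) := by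
        refine Finset.filter_congr fun x _ => ?_
        tauto
      rw [hcongr]
      rcases Finset.eq_empty_or_nonempty ((SFc g m n W).filter fun x => x.1 = G ∧ x.2.2.2 = Q ∧
        x.2.1.natDegree = a) with he | hne
      · rw [he, Finset.card_empty, Nat.cast_zero]
        exact mul_nonneg (mul_nonneg (mul_nonneg (pow_nonneg hq0.le _)
          (div_nonneg (pow_nonneg hq0.le _)
          (pow_nonneg hq0.le _))) (mul_nonneg hwt (mul_nonneg hrn (hif Q)))) hrw
      · have hne' := hne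
        obtain ⟨x1, hx1⟩ := hne'
        rw [Finset.mem_filter, mem_SFc] at hx1
        obtain ⟨⟨D1, hD1, hs1, _⟩, hG1, hQ1, hA1⟩ := hx1
        rw [hG1, hQ1] at hs1
        obtain ⟨_, e3, e4⟩ := hs1.even_deg hD1 (by rw [hA1]; exact ⟨r, hr⟩)
        rw [hA1] at e3 e4
        obtain ⟨ρ, hρ⟩ : ∃ ρ, ρ + 3 * r = 2 * g + 1 + 2 * Q.natDegree :=
          ⟨2 * g + 1 + 2 * Q.natDegree - 3 * r, by omega⟩
        have h3 := fib_realW h2 hWs hm hn hsq G Q a ρ (by
          intro A B B' D D' hA hD hs hD' hs'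
          exact IsSol.even_diff h2 hD hs hD' hs' (by rw [hA]; exact ⟨r, hr⟩) (by omega)) hne
          (by omega) (by omega)
        refine h3.trans (le_of_eq ?_)
        have h4 : (Nat.card k : ℝ) ^ ρ * (Nat.card k : ℝ) ^ (3 * r) =
            (Nat.card k : ℝ) ^ (2 * g + 1) * (Nat.card k : ℝ) ^ (2 * Q.natDegree) := by
          rw [← pow_add, ← pow_add, hρ]
        have h5 : (Nat.card k : ℝ) ^ a * (Nat.card k : ℝ) ^ ρ /
            (Nat.card k : ℝ) ^ (2 * Q.natDegree) = (Nat.card k : ℝ) ^ a *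
              ((Nat.card k : ℝ) ^ (2 * g + 1) / (Nat.card k : ℝ) ^ (3 * r)) := by
          rw [mul_div_assoc]
          congr 1
          rw [div_eq_div_iff (pow_ne_zero _ hq) (pow_ne_zero _ hq)]
          exact h4
        rw [h5]
    refine (Finset.sum_le_sum hterm).trans (le_of_eq ?_)
    rw [← Finset.sum_mul, ← Finset.mul_sum, ← Finset.mul_sum, ← Finset.mul_sum]
    have h6 := sum_Q (eqd_LT (k := k) (cm + 1)) hn hsn hmg.ne_zero hmgn (by omega)
    congr 1
    exact alg_even hq (by omega) rfl h6 rfl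
  · -- odd case
    obtain ⟨_, e1, e2⟩ := hs0.odd_deg hD0 (by rw [hA0]; exact hodd)
    rw [hA0] at e1 e2
    obtain ⟨r, hr⟩ := hodd
    obtain ⟨c, hc⟩ : ∃ c, 2 * c + 2 * g + 1 = 3 * a + G.natDegree := ⟨_, e1⟩
    obtain ⟨ρ, hρ⟩ : ∃ ρ, ρ + G.natDegree = c + g + 1 := ⟨c + g + 1 - G.natDegree, by omega⟩
    rw [Finset.card_eq_sum_card_fiberwise (f := fun x => x.2.2.2) (t := MD k c) (by
      intro x hx
      rw [Finset.mem_coe, Finset.mem_filter, mem_SFc] at hx
      obtain ⟨⟨D, hD, hs, _⟩, h3, h4⟩ := hx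
      rw [h3] at hs
      obtain ⟨e5, e3, e4⟩ := hs.odd_deg hD (by rw [h4]; exact ⟨r, hr⟩)
      rw [h4] at e3 e4
      rw [Finset.mem_coe, mem_MD]
      exact ⟨e5, by show x.2.2.2.natDegree = c; omega⟩)]
    push_cast
    have hterm : ∀ Q ∈ MD k c, ((((SFc g m n W).filter fun x => x.1 = G ∧
        x.2.1.natDegree = a).filter fun x => x.2.2.2 = Q).card : ℝ) ≤
        (Nat.card k : ℝ) ^ a * (Nat.card k : ℝ) ^ ρ / (Nat.card k : ℝ) ^ (2 * c) *
          (wt m G * (rphi n * (if IsCoprime Q (mgcd G m) then rphi (mgcd Q n) else 0))) *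
          rw2 n W := by
      intro Q hQ
      rw [mem_MD] at hQ
      rw [Finset.filter_filter]
      have hcongr : ((SFc g m n W).filter fun x => (x.1 = G ∧ x.2.1.natDegree = a) ∧ x.2.2.2 = Q) =
          ((SFc g m n W).filter fun x => x.1 = G ∧ x.2.2.2 = Q ∧ x.2.1.natDegree = a) := by
        refine Finset.filter_congr fun x _ => ?_
        tauto
      rw [hcongr]
      rcases Finset.eq_empty_or_nonempty ((SFc g m n W).filter fun x => x.1 = G ∧ x.2.2.2 = Q ∧
        x.2.1.natDegree = a) with he | hne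
      · rw [he, Finset.card_empty, Nat.cast_zero]
        exact mul_nonneg (mul_nonneg (div_nonneg (mul_nonneg (pow_nonneg hq0.le _)
          (pow_nonneg hq0.le _))
          (pow_nonneg hq0.le _)) (mul_nonneg hwt (mul_nonneg hrn (hif Q)))) hrw
      · have h3 := fib_realW h2 hWs hm hn hsq G Q a ρ (by
          intro A B B' D D' hA hD hs hD' hs'
          obtain ⟨_, _, e6⟩ := hs.odd_deg hD (by rw [hA]; exact ⟨r, hr⟩)
          obtain ⟨_, _, e7⟩ := hs'.odd_deg hD' (by rw [hA]; exact ⟨r, hr⟩)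
          rw [hA] at e6 e7
          refine lt_of_le_of_lt (degree_sub_le _ _) (max_lt ?_ ?_)
          · exact lt_of_natDegree (by omega)
          · exact lt_of_natDegree (by omega)) hne
          (by omega) (by omega)
        rwa [hQ.2] at h3
    refine (Finset.sum_le_sum hterm).trans (le_of_eq ?_)
    rw [← Finset.sum_mul, ← Finset.mul_sum, ← Finset.mul_sum, ← Finset.mul_sum]
    have h6 := sum_Q (eqd_MD (k := k) c) hn hsn hmg.ne_zero hmgn (by omega)
    congr 1
    exact alg_odd hq (by omega) rfl h6 rfl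

end

end Pool.Agent.Y290.SC
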