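import Pool.Agent.Y290.SC.Sum
import Pool.Agent.Y153.SV.Pair

set_option autoImplicit false
set_option maxHeartbeats 1000000

/-!
Class conditions: pairs.
-/

open Polynomial Classical

namespace Pool.Agent.Y290.SC

open Pool.Agent.Y711 Pool.Agent.W313.Hyp Pool.Agent.Y153.SV

section

variable {k : Type} [Field k]

/-- `R` depends only on the class modulo `e` -/
def Inv (e : k[X]) (R : k[X] → Prop) : Prop := ∀ w w' : k[X], e ∣ w - w' → (R w ↔ R w')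

theorem per_R {G N e u : k[X]} (hN0 : N ≠ 0) {R : k[X] → Prop} (hR : Inv e R) {B B' : k[X]}
    (hB : N * e ∣ B' - B) (h : N ∣ G * B ^ 2 - u ∧ R ((G * B ^ 2 - u) / N)) :
    N ∣ G * B' ^ 2 - u ∧ R ((G * B' ^ 2 - u) / N) := by
  obtain ⟨z, hz⟩ := hB
  have h1 : B' = B + N * (e * z) := by linear_combination hz
  rw [h1]
  obtain ⟨h3, h4⟩ := h
  have h5 := quot_shift (z := e * z) hN0 h3
  refine ⟨?_, ?_⟩
  · obtain ⟨c, hc⟩ := h3
    exact ⟨c + 2 * G * B * (e * z) + N * (G * (e * z) ^ 2), by linear_combination hc⟩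
  · rw [h5]
    refine (hR _ _ ?_).1 h4
    exact ⟨-(z * (2 * (G * B)) + N * (G * (e * z ^ 2))), by ring⟩

theorem cls_sub {n D D' : k[X]} (W : MI k → Finset ℤ) (h : n ∣ D - D') :
    IsCls n W D ↔ IsCls n W D' := cls_congr W h

/-- the condition on the quotient -/
def RW (W : MI k → Finset ℤ) (m1 n1 c w : k[X]) : Prop := IsCoprime w m1 ∧ IsCls n1 W (c * w)

theorem RW_inv (W : MI k → Finset ℤ) (m1 n1 c : k[X]) : Inv (m1 * n1) (RW W m1 n1 c) := by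
  intro w w' h
  unfold RW
  refine and_congr (cop_congr ((dvd_mul_right _ _).trans h)) (cls_congr W ?_)
  rw [← mul_sub]
  exact ((dvd_mul_left _ _).trans h).mul_left _

end

section

variable {k : Type} [Field k] [Finite k]

theorem RW_card (W : MI k → Finset ℤ) {m1 n1 : k[X]} (c : k[X]) (hm1 : m1 ≠ 0) (hn1 : n1 ≠ 0)
    (hc : IsCoprime m1 n1) :
    ((LT k (m1 * n1).natDegree).filter (RW W m1 n1 c)).card = phi m1 * cW W n1 c := by
  unfold phi cW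
  rw [Finset.card_filter, Finset.card_filter, Finset.card_filter,
    ← sum_crt hm1 hn1 hc (fun r => if IsCoprime r m1 then 1 else 0)
      (fun r => if IsCls n1 W (c * r) then 1 else 0)]
  refine Finset.sum_congr rfl fun r _ => ?_
  have h2 : IsCls n1 W (c * (r % n1)) ↔ IsCls n1 W (c * r) := by
    apply cls_congr
    rw [← mul_sub]
    exact (dvd_mod_sub r n1).mul_left _
  unfold RW
  simp only [coprime_mod', h2]
  by_cases h3 : IsCoprime r m1 <;> by_cases h4 : IsCls n1 W (c * r) <;> simp [h3, h4]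

theorem inner1R (h2 : (2 : k) ≠ 0) {G N e u : k[X]} (hN0 : N ≠ 0) (he : e ≠ 0) (hd : e ∣ N)
    (hG : IsCoprime G N) (hu : IsCoprime u N) {R : k[X] → Prop} (hR : Inv e R) :
    ((LT k (N * e).natDegree).filter fun r => N ∣ G * r ^ 2 - u ∧ R ((G * r ^ 2 - u) / N)).card =
      ((LT k N.natDegree).filter fun r => N ∣ G * r ^ 2 - u).card *
        ((LT k e.natDegree).filter R).card := by
  have h12 := card_lift h2 hN0 he hd hG hu R
  rw [← h12]
  refine congrArg Finset.card (Finset.filter_congr fun z _ => and_congr Iff.rfl ?_)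
  exact (hR _ _ (dvd_mod_sub _ _)).symm

theorem inner_countW (h2 : (2 : k) ≠ 0) (W : MI k → Finset ℤ) {G C₁ m1 n1 n0 c : k[X]}
    (hC : C₁ ≠ 0) (hm1 : m1 ≠ 0)
    (hn1 : n1 ≠ 0) (hn0 : n0 ≠ 0) (hd : n1 ∣ C₁) (hmn : IsCoprime m1 n1)
    (hG : IsCoprime G (C₁ * m1))
    (hc0 : IsCoprime (C₁ * m1) n0) {κ : k} (hκ : κ ≠ 0) {A : k[X]} (hA : IsCoprime A (C₁ * m1))
    {ρ : ℕ} (hρ : (C₁ ^ 2 * m1 * (m1 * n1) * n0).natDegree ≤ ρ) (B₀ : k[X]) :
    ((LT k ρ).filter fun z => (C₁ ^ 2 * m1 ∣ G * (B₀ + z) ^ 2 - C κ * A ^ 3 ∧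
      RW W m1 n1 c ((G * (B₀ + z) ^ 2 - C κ * A ^ 3) / (C₁ ^ 2 * m1))) ∧
      IsCls n0 W (G * (G * (B₀ + z) ^ 2 - C κ * A ^ 3))).card =
    Nat.card k ^ (ρ - (C₁ ^ 2 * m1 * (m1 * n1) * n0).natDegree) *
      (cc (C₁ * m1) G κ A * (phi m1 * cW W n1 c) * hW W n0 G κ A) := by
  have hN0 : C₁ ^ 2 * m1 ≠ 0 := mul_ne_zero (pow_ne_zero 2 hC) hm1
  have hN1 : C₁ * m1 ≠ 0 := mul_ne_zero hC hm1
  have he0 : m1 * n1 ≠ 0 := mul_ne_zero hm1 hn1
  have hNe0 : C₁ ^ 2 * m1 * (m1 * n1) ≠ 0 := mul_ne_zero hN0 he0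
  have hκ' : C κ * C κ⁻¹ = (1 : k[X]) := by rw [← C_mul, mul_inv_cancel₀ hκ, C_1]
  have hu1 : IsCoprime (C κ * A ^ 3) (C₁ * m1) := by
    obtain ⟨a, b, hab⟩ := (hA.pow_left (m := 3))
    exact ⟨C κ⁻¹ * a, b, by linear_combination hab + a * A ^ 3 * hκ'⟩
  have hNN : C₁ * m1 * C₁ = C₁ ^ 2 * m1 := by ring
  have huN : IsCoprime (C κ * A ^ 3) (C₁ ^ 2 * m1) := by
    rw [← hNN]
    exact hu1.mul_right hu1.of_mul_right_left
  have hGN : IsCoprime G (C₁ ^ 2 * m1) := by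
    rw [← hNN]
    exact hG.mul_right hG.of_mul_right_left
  have heN : m1 * n1 ∣ C₁ ^ 2 * m1 := by
    obtain ⟨c, rfl⟩ := hd
    exact ⟨n1 * c ^ 2, by ring⟩
  have hcop : IsCoprime (C₁ ^ 2 * m1 * (m1 * n1)) n0 := by
    obtain ⟨c, hc⟩ := hd
    have h3 : IsCoprime C₁ n0 := hc0.of_mul_left_left
    have h4 : IsCoprime m1 n0 := hc0.of_mul_left_right
    have h5 : IsCoprime n1 n0 := by
      rw [hc] at h3
      exact h3.of_mul_left_left
    exact ((h3.pow_left).mul_left h4).mul_left (h4.mul_left h5)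
  have hRe : Inv (m1 * n1) (RW W m1 n1 c) := RW_inv W m1 n1 c
  have hRc : ((LT k (m1 * n1).natDegree).filter (RW W m1 n1 c)).card = phi m1 * cW W n1 c :=
    RW_card W c hm1 hn1 hmn
  set R := RW W m1 n1 c with hRdef
  set N := C₁ ^ 2 * m1 with hN
  set e := m1 * n1 with he
  set u := C κ * A ^ 3 with hu
  have hn0' : ∀ r r' : k[X], n0 ∣ r - r' → (IsCls n0 W (G * (G * r ^ 2 - u)) ↔
      IsCls n0 W (G * (G * r' ^ 2 - u))) := fun r r' h =>
    cls_congr W (cube_dvd κ h (by rw [sub_self]; exact dvd_zero _))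
  -- periodicity
  have h10 : ((LT k ρ).filter fun z => (N ∣ G * (B₀ + z) ^ 2 - u ∧
      R ((G * (B₀ + z) ^ 2 - u) / N)) ∧ IsCls n0 W (G * (G * (B₀ + z) ^ 2 - u))).card =
      ((LT k ρ).filter fun z => (fun r => (N ∣ G * r ^ 2 - u ∧
        R ((G * r ^ 2 - u) / N)) ∧ IsCls n0 W (G * (G * r ^ 2 - u)))
          ((B₀ + z) % (N * e * n0))).card := by
    refine congrArg Finset.card (Finset.filter_congr ?_)
    intro z _
    have h3 := dvd_mod_sub (B₀ + z) (N * e * n0)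
    have h4 : N * e ∣ (B₀ + z) % (N * e * n0) - (B₀ + z) := (dvd_mul_right _ _).trans h3
    have h4' : N * e ∣ (B₀ + z) - (B₀ + z) % (N * e * n0) := by
      rw [← neg_sub]
      exact (dvd_neg).2 h4
    have h5 : n0 ∣ (B₀ + z) - (B₀ + z) % (N * e * n0) := by
      rw [← neg_sub]
      exact (dvd_neg).2 ((dvd_mul_left _ _).trans h3)
    exact and_congr ⟨per_R hN0 hRe h4, per_R hN0 hRe h4'⟩ (hn0' _ _ h5)
  have h11 := card_interval (N * e * n0) (mul_ne_zero hNe0 hn0) hρ B₀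
    (fun r => (N ∣ G * r ^ 2 - u ∧ R ((G * r ^ 2 - u) / N)) ∧
      IsCls n0 W (G * (G * r ^ 2 - u)))
  rw [h10]
  refine h11.trans ?_
  refine congrArg (HMul.hMul (Nat.card k ^ (ρ - (N * e * n0).natDegree))) ?_
  -- CRT
  have h12 := sum_crt hNe0 hn0 hcop
    (fun r => if N ∣ G * r ^ 2 - u ∧ R ((G * r ^ 2 - u) / N) then 1 else 0)
    (fun r => if IsCls n0 W (G * (G * r ^ 2 - u)) then 1 else 0)
  have h13 : ∑ r ∈ LT k (N * e).natDegree,
      (if N ∣ G * r ^ 2 - u ∧ R ((G * r ^ 2 - u) / N) then 1 else 0) =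
      cc (C₁ * m1) G κ A * (phi m1 * cW W n1 c) := by
    have h14 := inner1R h2 hN0 he0 heN hGN huN hRe
    have h15 := inner2 h2 hN1 hC (dvd_mul_right _ _) hG hu1
    rw [hNN] at h15
    rw [Finset.sum_boole, Nat.cast_id, h14, h15, hRc]
    rfl
  have h16 : ∑ r ∈ LT k n0.natDegree, (if IsCls n0 W (G * (G * r ^ 2 - u)) then 1 else 0) =
      hW W n0 G κ A := by
    rw [Finset.sum_boole, Nat.cast_id]
    rfl
  rw [h13, h16] at h12
  rw [← h12, Finset.card_filter]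
  refine Finset.sum_congr rfl fun r _ => ?_
  have h3 := dvd_mod_sub r (N * e)
  have h3' : N * e ∣ r - r % (N * e) := by
    rw [← neg_sub]
    exact (dvd_neg).2 h3
  have h4 : (N ∣ G * (r % (N * e)) ^ 2 - u ∧ R ((G * (r % (N * e)) ^ 2 - u) / N)) ↔
      (N ∣ G * r ^ 2 - u ∧ R ((G * r ^ 2 - u) / N)) :=
    ⟨per_R hN0 hRe h3', per_R hN0 hRe h3⟩
  have h5 : IsCls n0 W (G * (G * (r % n0) ^ 2 - u)) ↔ IsCls n0 W (G * (G * r ^ 2 - u)) :=
    hn0' _ _ (dvd_mod_sub r n0)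
  simp only [h4, h5]
  by_cases h6 : N ∣ G * r ^ 2 - u ∧ R ((G * r ^ 2 - u) / N) <;>
    by_cases h7 : IsCls n0 W (G * (G * r ^ 2 - u)) <;> simp [h6, h7]

/-- The count of the pairs. -/
theorem pair_countW (h2 : (2 : k) ≠ 0) (W : MI k → Finset ℤ) {G C₁ m1 mG n1 n0 c : k[X]}
    (hC : C₁ ≠ 0) (hm1 : m1 ≠ 0)
    (hmG : mG ≠ 0) (hn1 : n1 ≠ 0) (hn0 : n0 ≠ 0) (hd : n1 ∣ C₁) (hmn : IsCoprime m1 n1)
    (hG : IsCoprime G (C₁ * m1))
    (hcop : IsCoprime (C₁ * m1) mG) (hcn : IsCoprime (C₁ * m1 * mG) n0) {κ : k} (hκ : κ ≠ 0)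
    {a ρ : ℕ} (ha : (C₁ * m1 * mG * n0).natDegree ≤ a)
    (hρ : (C₁ ^ 2 * m1 * (m1 * n1) * n0).natDegree ≤ ρ)
    (B₀ : k[X] → k[X]) :
    ∑ A ∈ MD k a, (if IsCoprime A (C₁ * m1 * mG) then
      ((LT k ρ).filter fun z => (C₁ ^ 2 * m1 ∣ G * (B₀ A + z) ^ 2 - C κ * A ^ 3 ∧
        RW W m1 n1 c ((G * (B₀ A + z) ^ 2 - C κ * A ^ 3) / (C₁ ^ 2 * m1))) ∧
        IsCls n0 W (G * (G * (B₀ A + z) ^ 2 - C κ * A ^ 3))).card else 0) =
    Nat.card k ^ (a - (C₁ * m1 * mG * n0).natDegree) *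
      (Nat.card k ^ (ρ - (C₁ ^ 2 * m1 * (m1 * n1) * n0).natDegree) *
        (phi (C₁ * m1) * phi mG * (phi m1 * cW W n1 c) *
          ∑ A ∈ LT k n0.natDegree, hW W n0 G κ A)) := by
  have hN1 : C₁ * m1 ≠ 0 := mul_ne_zero hC hm1
  have hN2 : C₁ * m1 * mG ≠ 0 := mul_ne_zero hN1 hmG
  have h3 : ∀ A ∈ MD k a, (if IsCoprime A (C₁ * m1 * mG) then
      ((LT k ρ).filter fun z => (C₁ ^ 2 * m1 ∣ G * (B₀ A + z) ^ 2 - C κ * A ^ 3 ∧
        RW W m1 n1 c ((G * (B₀ A + z) ^ 2 - C κ * A ^ 3) / (C₁ ^ 2 * m1))) ∧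
        IsCls n0 W (G * (G * (B₀ A + z) ^ 2 - C κ * A ^ 3))).card else 0) =
      (Nat.card k ^ (ρ - (C₁ ^ 2 * m1 * (m1 * n1) * n0).natDegree) * (phi m1 * cW W n1 c)) *
        (fun r => (if IsCoprime r (C₁ * m1 * mG) then cc (C₁ * m1) G κ r else 0) *
          hW W n0 G κ r)
          (A % (C₁ * m1 * mG * n0)) := by
    intro A _
    show _ = _ * ((if IsCoprime (A % (C₁ * m1 * mG * n0)) (C₁ * m1 * mG) then
      cc (C₁ * m1) G κ (A % (C₁ * m1 * mG * n0)) else 0) * hW W n0 G κ (A % (C₁ * m1 * mG * n0)))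
    rw [coprime_mod (dvd_mul_right _ _), cc_mod ((dvd_mul_right _ _).trans (dvd_mul_right _ _)),
      hW_mod W (dvd_mul_left _ _)]
    split_ifs with hA
    · rw [inner_countW h2 W hC hm1 hn1 hn0 hd hmn hG hcn.of_mul_left_left hκ
        hA.of_mul_right_left hρ]
      ring
    · rw [zero_mul, mul_zero]
  have h3' := sum_monic (C₁ * m1 * mG * n0) (mul_ne_zero hN2 hn0) ha
    (fun r => (if IsCoprime r (C₁ * m1 * mG) then cc (C₁ * m1) G κ r else 0) * hW W n0 G κ r)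
  rw [Finset.sum_congr rfl h3, ← Finset.mul_sum, h3']
  have h4 : ∑ r ∈ LT k (C₁ * m1 * mG).natDegree,
      (if IsCoprime r (C₁ * m1 * mG) then cc (C₁ * m1) G κ r else 0) =
      phi (C₁ * m1) * phi mG := by
    have h5 := sum_crt hN1 hmG hcop
      (fun r => if IsCoprime r (C₁ * m1) then cc (C₁ * m1) G κ r else 0)
      (fun r => if IsCoprime r mG then 1 else 0)
    have h6 : ∑ r ∈ LT k (C₁ * m1).natDegree,
        (if IsCoprime r (C₁ * m1) then cc (C₁ * m1) G κ r else 0) = phi (C₁ * m1) :=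
      unit_sum hN1 hG hκ
    have h7 : ∑ r ∈ LT k mG.natDegree, (if IsCoprime r mG then 1 else 0) = phi mG := by
      unfold phi
      rw [Finset.card_filter]
    rw [h6, h7] at h5
    rw [← h5]
    apply Finset.sum_congr rfl
    intro r _
    show _ = (if IsCoprime (r % (C₁ * m1)) (C₁ * m1) then cc (C₁ * m1) G κ (r % (C₁ * m1)) else 0) *
      (if IsCoprime (r % mG) mG then 1 else 0)
    rw [coprime_mod', coprime_mod', cc_mod dvd_rfl, IsCoprime.mul_right_iff]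
    by_cases h8 : IsCoprime r (C₁ * m1) <;> by_cases h9 : IsCoprime r mG <;> simp [h8, h9]
  have h10 : ∑ r ∈ LT k (C₁ * m1 * mG * n0).natDegree,
      (if IsCoprime r (C₁ * m1 * mG) then cc (C₁ * m1) G κ r else 0) * hW W n0 G κ r =
      (phi (C₁ * m1) * phi mG) * ∑ A ∈ LT k n0.natDegree, hW W n0 G κ A := by
    have h11 := sum_crt hN2 hn0 hcn
      (fun r => if IsCoprime r (C₁ * m1 * mG) then cc (C₁ * m1) G κ r else 0)
      (fun r => hW W n0 G κ r)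
    rw [h4] at h11
    rw [← h11]
    refine Finset.sum_congr rfl fun r _ => ?_
    show _ = (if IsCoprime (r % (C₁ * m1 * mG)) (C₁ * m1 * mG) then
      cc (C₁ * m1) G κ (r % (C₁ * m1 * mG)) else 0) * hW W n0 G κ (r % n0)
    rw [coprime_mod', cc_mod (dvd_mul_right _ _), hW_mod W dvd_rfl]
  rw [h10]
  ring

end

end Pool.Agent.Y290.SC
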