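import Pool.Agent.Y290.SC.GA
import Pool.Agent.Y153.SV.S1

set_option autoImplicit false
set_option maxHeartbeats 1000000

/-!
Sieve for `Y711`: the upper bound for the number of the solutions with conditions on the class.
-/

open Polynomial Classical

namespace Pool.Agent.Y290.SC

open Pool.Agent.Y711 Pool.Agent.W313.Hyp Pool.Agent.Y153.SV

section

variable {k : Type} [Field k] [Finite k]

/-- the number of the solutions with given `G` -/
theorem G_boundW (h2 : (2 : k) ≠ 0) {W : MI k → Finset ℤ}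
    (hWs : ∀ P, W P ⊆ {1, -1}) {g : ℕ} {m n : k[X]} (hm : m.Monic) (hn : n.Monic)
    (hsq : Squarefree (m * n)) (hg : 4 * (m.natDegree + n.natDegree) ≤ g) (G : k[X]) :
    (((SFc g m n W).filter fun x => x.1 = G).card : ℝ) ≤
      (Nat.card k : ℝ) ^ (2 * g + 1) * ((Nat.card k : ℝ) / (Nat.card k - 1)) *
        (wS m n G * rw2 n W / (Nat.card k : ℝ) ^ (2 * G.natDegree)) +
      (Nat.card k : ℝ) ^ (g + 1) / (Nat.card k : ℝ) ^ G.natDegree *
        ∑ a ∈ Finset.range ((2 * g + 1 + 2 * (m.natDegree + n.natDegree)) / 3 + 1),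
          (Nat.card k : ℝ) ^ a := by
  have hq1 : (1 : ℝ) < Nat.card k := q_one_lt
  have hq0 : (0 : ℝ) < Nat.card k := by linarith
  have hq : (Nat.card k : ℝ) ≠ 0 := hq0.ne'
  have hw : 0 ≤ wS m n G * rw2 n W := mul_nonneg (wS_nonneg m n G) (rw2_nonneg W n)
  have hq2 : (0 : ℝ) < Nat.card k - 1 := by linarith
  set T := (2 * g + 1 + 2 * (m.natDegree + n.natDegree)) / 3 + 1 with hT
  have hE : 0 ≤ ∑ a ∈ Finset.range T, (Nat.card k : ℝ) ^ a :=
    Finset.sum_nonneg fun a _ => pow_nonneg hq0.le _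
  rcases Finset.eq_empty_or_nonempty ((SFc g m n W).filter fun x => x.1 = G) with he | hne
  · rw [he, Finset.card_empty, Nat.cast_zero]
    refine add_nonneg (mul_nonneg (mul_nonneg (pow_nonneg hq0.le _) (div_nonneg hq0.le hq2.le))
      (div_nonneg hw (pow_nonneg hq0.le _))) (mul_nonneg (div_nonneg (pow_nonneg hq0.le _)
      (pow_nonneg hq0.le _)) hE)
  obtain ⟨x0, hx0⟩ := hne
  rw [Finset.mem_filter, mem_SFc] at hx0
  obtain ⟨⟨D0, hD0, hs0, hDn0⟩, hG0⟩ := hx0
  rw [hG0] at hs0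
  have hdeg0 := hs0.deg
  have hsG : Squarefree G := hD0.sqf.squarefree_of_dvd hs0.dvd
  have hGn : IsCoprime G n := (cls_cop hn.ne_zero hWs hDn0).of_isCoprime_of_dvd_left hs0.dvd
  have hwS : wS m n G = wG m n G := by
    unfold wS
    rw [if_pos ⟨hsG, hGn⟩]
  obtain ⟨t, ht⟩ : ∃ t, G.natDegree + t = g := ⟨g - G.natDegree, by omega⟩
  rw [Finset.card_eq_sum_card_fiberwise (f := fun x => x.2.1.natDegree)
    (t := Finset.range (t + 1)) (by
      intro x hx
      rw [Finset.mem_coe, Finset.mem_filter, mem_SFc] at hx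
      obtain ⟨⟨D, hD, hs, _⟩, h3⟩ := hx
      rw [h3] at hs
      have := hs.deg
      rw [Finset.mem_coe, Finset.mem_range]
      show x.2.1.natDegree < t + 1
      omega)]
  push_cast
  have hterm : ∀ a ∈ Finset.range (t + 1), ((((SFc g m n W).filter fun x => x.1 = G).filter
      fun x => x.2.1.natDegree = a).card : ℝ) ≤
      (Nat.card k : ℝ) ^ a * ((Nat.card k : ℝ) ^ (g + 1) / (Nat.card k : ℝ) ^ G.natDegree *
        (wS m n G * rw2 n W)) + (Nat.card k : ℝ) ^ (g + 1) / (Nat.card k : ℝ) ^ G.natDegree *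
          (if a < T then (Nat.card k : ℝ) ^ a else 0) := by
    intro a _
    rw [Finset.filter_filter]
    have hpow : (Nat.card k : ℝ) ^ (a + g + 1) = (Nat.card k : ℝ) ^ a * (Nat.card k : ℝ) ^ (g + 1) := by
      rw [show a + g + 1 = a + (g + 1) by ring, pow_add]
    have hc0 : 0 ≤ (Nat.card k : ℝ) ^ (g + 1) / (Nat.card k : ℝ) ^ G.natDegree :=
      div_nonneg (pow_nonneg hq0.le _) (pow_nonneg hq0.le _)
    by_cases hla : 2 * g + 2 + 2 * (m.natDegree + n.natDegree) ≤ 3 * a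
    · refine (GA_sharpW h2 hWs hm hn hsq hg G a hla).trans ?_
      rw [← hwS, hpow]
      have h3 : 0 ≤ (Nat.card k : ℝ) ^ (g + 1) / (Nat.card k : ℝ) ^ G.natDegree *
          (if a < T then (Nat.card k : ℝ) ^ a else 0) := by
        refine mul_nonneg hc0 ?_
        split_ifs
        · exact pow_nonneg hq0.le _
        · exact le_rfl
      have h4 : (Nat.card k : ℝ) ^ a * (Nat.card k : ℝ) ^ (g + 1) /
          (Nat.card k : ℝ) ^ G.natDegree * wS m n G * rw2 n W =
          (Nat.card k : ℝ) ^ a * ((Nat.card k : ℝ) ^ (g + 1) / (Nat.card k : ℝ) ^ G.natDegree *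
        (wS m n G * rw2 n W)) := by ring
      rw [h4]
      linarith
    · have haT : a < T := by omega
      rw [if_pos haT]
      have h3 : (((SFc g m n W).filter fun x => x.1 = G ∧ x.2.1.natDegree = a).card : ℝ) ≤
          (((SF g m).filter fun x => x.1 = G ∧ x.2.1.natDegree = a).card : ℝ) := by
        exact_mod_cast Finset.card_le_card (Finset.filter_subset_filter _ (SFc_sub g m n W))
      have h4 := GA_bound h2 (g := g) (m := m) (by omega) G a
      have h5 : (Nat.card k : ℝ) ^ (a + g + 1) / (Nat.card k : ℝ) ^ G.natDegree * wt m G ≤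
          (Nat.card k : ℝ) ^ (a + g + 1) / (Nat.card k : ℝ) ^ G.natDegree * 1 :=
        mul_le_mul_of_nonneg_left (wt_le_one m G)
          (div_nonneg (pow_nonneg hq0.le _) (pow_nonneg hq0.le _))
      have h6 : (Nat.card k : ℝ) ^ (a + g + 1) / (Nat.card k : ℝ) ^ G.natDegree * 1 =
          (Nat.card k : ℝ) ^ (g + 1) / (Nat.card k : ℝ) ^ G.natDegree *
            (Nat.card k : ℝ) ^ a := by
        rw [hpow]
        ring
      have h7 : 0 ≤ (Nat.card k : ℝ) ^ a * ((Nat.card k : ℝ) ^ (g + 1) /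
          (Nat.card k : ℝ) ^ G.natDegree * (wS m n G * rw2 n W)) :=
        mul_nonneg (pow_nonneg hq0.le _) (mul_nonneg hc0 hw)
      linarith
  refine (Finset.sum_le_sum hterm).trans ?_
  rw [Finset.sum_add_distrib]
  refine add_le_add ?_ ?_
  · rw [← Finset.sum_mul]
    have h3 := geom_le hq1 t
    have h4 : (Nat.card k : ℝ) ^ (2 * g + 1) * ((Nat.card k : ℝ) / (Nat.card k - 1)) *
        (wS m n G * rw2 n W / (Nat.card k : ℝ) ^ (2 * G.natDegree)) =
        ((Nat.card k : ℝ) ^ t * ((Nat.card k : ℝ) / (Nat.card k - 1))) *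
          ((Nat.card k : ℝ) ^ (g + 1) / (Nat.card k : ℝ) ^ G.natDegree *
            (wS m n G * rw2 n W)) := by
      have h5 : (Nat.card k : ℝ) ^ (2 * g + 1) =
          (Nat.card k : ℝ) ^ t * (Nat.card k : ℝ) ^ (g + 1) * (Nat.card k : ℝ) ^ G.natDegree := by
        rw [← pow_add, ← pow_add]
        congr 1
        omega
      rw [h5, two_mul, pow_add]
      field_simp
      ring
    rw [h4]
    exact mul_le_mul_of_nonneg_right h3 (mul_nonneg (div_nonneg (pow_nonneg hq0.le _)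
      (pow_nonneg hq0.le _)) hw)
  · rw [← Finset.mul_sum]
    exact mul_le_mul_of_nonneg_left (sum_small hq1 (t + 1) T)
      (div_nonneg (pow_nonneg hq0.le _) (pow_nonneg hq0.le _))

/-- the number of all solutions -/
theorem totalW (h2 : (2 : k) ≠ 0) {W : MI k → Finset ℤ}
    (hWs : ∀ P, W P ⊆ {1, -1}) {g : ℕ} {m n : k[X]} (hm : m.Monic) (hn : n.Monic)
    (hsq : Squarefree (m * n)) (hg : 4 * (m.natDegree + n.natDegree) ≤ g) :
    ((SFc g m n W).card : ℝ) ≤ (Nat.card k : ℝ) ^ (2 * g + 1) *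
      (((Nat.card k : ℝ) / (Nat.card k - 1)) ^ 2 * (wmn m n * rw2 n W)) +
      ((g : ℝ) + 1) * ((Nat.card k : ℝ) ^ (g + 1) *
        ∑ a ∈ Finset.range ((2 * g + 1 + 2 * (m.natDegree + n.natDegree)) / 3 + 1),
          (Nat.card k : ℝ) ^ a) := by
  have hq1 : (1 : ℝ) < Nat.card k := q_one_lt
  have hq0 : (0 : ℝ) < Nat.card k := by linarith
  have hq2 : (0 : ℝ) < Nat.card k - 1 := by linarith
  set E := ∑ a ∈ Finset.range ((2 * g + 1 + 2 * (m.natDegree + n.natDegree)) / 3 + 1),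
          (Nat.card k : ℝ) ^ a with hE
  rw [Finset.card_eq_sum_card_fiberwise (f := fun x => x.1.natDegree)
    (t := Finset.range (g + 1)) (by
      intro x hx
      rw [Finset.mem_coe, mem_SFc] at hx
      obtain ⟨D, hD, hs, _⟩ := hx
      have := hs.deg
      rw [Finset.mem_coe, Finset.mem_range]
      show x.1.natDegree < g + 1
      omega)]
  push_cast
  have h1 : ∀ j ∈ Finset.range (g + 1), (((SFc g m n W).filter fun x => x.1.natDegree = j).card : ℝ) ≤
      ((Nat.card k : ℝ) ^ (2 * g + 1) * ((Nat.card k : ℝ) / (Nat.card k - 1))) *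
        (∑ G ∈ MD k j, wS m n G * rw2 n W / (Nat.card k : ℝ) ^ (2 * j)) + (Nat.card k : ℝ) ^ (g + 1) * E := by
    intro j _
    rw [Finset.card_eq_sum_card_fiberwise (f := fun x => x.1) (t := MD k j) (by
      intro x hx
      rw [Finset.mem_coe, Finset.mem_filter, mem_SFc] at hx
      obtain ⟨⟨D, hD, hs, _⟩, h3⟩ := hx
      rw [Finset.mem_coe, mem_MD]
      exact ⟨hs.hG, h3⟩)]
    push_cast
    have h3 : ∀ G ∈ MD k j, ((((SFc g m n W).filter fun x => x.1.natDegree = j).filter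
        fun x => x.1 = G).card : ℝ) ≤ (Nat.card k : ℝ) ^ (2 * g + 1) *
          ((Nat.card k : ℝ) / (Nat.card k - 1)) * (wS m n G * rw2 n W / (Nat.card k : ℝ) ^ (2 * j)) +
          (Nat.card k : ℝ) ^ (g + 1) / (Nat.card k : ℝ) ^ j * E := by
      intro G hG
      rw [mem_MD] at hG
      rw [Finset.filter_filter]
      have h4 := G_boundW h2 hWs hm hn hsq hg G
      rw [hG.2] at h4
      refine le_trans ?_ h4
      exact_mod_cast Finset.card_le_card (fun x hx => by
        rw [Finset.mem_filter] at hx ⊢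
        exact ⟨hx.1, hx.2.2⟩)
    refine (Finset.sum_le_sum h3).trans (le_of_eq ?_)
    rw [Finset.sum_add_distrib, ← Finset.mul_sum, Finset.sum_const, card_MD, nsmul_eq_mul]
    push_cast
    congr 1
    have h5 : (Nat.card k : ℝ) ^ j ≠ 0 := pow_ne_zero _ hq0.ne'
    field_simp
  refine (Finset.sum_le_sum h1).trans ?_
  rw [Finset.sum_add_distrib, ← Finset.mul_sum, Finset.sum_const, Finset.card_range, nsmul_eq_mul]
  push_cast
  refine add_le_add ?_ le_rfl
  have hS : ∑ j ∈ Finset.range (g + 1), ∑ G ∈ MD k j,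
      wS m n G * rw2 n W / (Nat.card k : ℝ) ^ (2 * j) =
      (∑ j ∈ Finset.range (g + 1), ∑ G ∈ MD k j, wS m n G / (Nat.card k : ℝ) ^ (2 * j)) *
        rw2 n W := by
    rw [Finset.sum_mul]
    refine Finset.sum_congr rfl fun j _ => ?_
    rw [Finset.sum_mul]
    exact Finset.sum_congr rfl fun G _ => by ring
  rw [hS]
  refine (mul_le_mul_of_nonneg_left (mul_le_mul_of_nonneg_right (wS_sum hm hn hsq (g + 1))
    (rw2_nonneg W n))
    (mul_nonneg (pow_nonneg hq0.le _) (div_nonneg hq0.le hq2.le))).trans (le_of_eq ?_)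
  ring

/-- SC1 -/
theorem SC1 (h2 : (2 : k) ≠ 0) : StC1 k := by
  intro m n hm hn hsq W hWs ε hε
  have hq1 : (1 : ℝ) < Nat.card k := q_one_lt
  have hq0 : (0 : ℝ) < Nat.card k := by linarith
  have hq2 : (2 : ℝ) ≤ Nat.card k := by
    have : 1 < Nat.card k := Finite.one_lt_card
    exact_mod_cast this
  set L := m.natDegree + n.natDegree with hL
  obtain ⟨U, hU⟩ := ev_small hε L
  refine ⟨4 * L + 3 * U + 2 * L + 1, fun g hg => ?_⟩
  have h1 := totalW h2 hWs hm hn hsq (g := g) (by omega)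
  refine h1.trans ?_
  rw [mul_add ((Nat.card k : ℝ) ^ (2 * g + 1)), ← hL]
  refine add_le_add (le_refl _) ?_
  set T := (2 * g + 1 + 2 * L) / 3 with hT
  obtain ⟨u, hu⟩ : ∃ u, g = T + u := ⟨g - T, by omega⟩
  have huU : U ≤ u := by omega
  have hgu : g + 1 ≤ 3 * u + 2 + 2 * L := by omega
  have h3 : ∑ a ∈ Finset.range (T + 1), (Nat.card k : ℝ) ^ a ≤ (Nat.card k : ℝ) ^ T * 2 := by
    refine (geom_le hq1 T).trans (mul_le_mul_of_nonneg_left ?_ (pow_nonneg hq0.le _))
    rw [div_le_iff₀ (by linarith)]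
    linarith
  have h4 := hU u huU
  have h5 : (2 : ℝ) ^ u ≤ (Nat.card k : ℝ) ^ u := pow_le_pow_left₀ (by norm_num) hq2 u
  have h6 : ((g : ℝ) + 1) ≤ 3 * (u : ℝ) + 2 + 2 * L := by exact_mod_cast hgu
  have h7 : 2 * ((g : ℝ) + 1) ≤ ε * (Nat.card k : ℝ) ^ u := by
    calc 2 * ((g : ℝ) + 1) ≤ 2 * (3 * (u : ℝ) + 2 + 2 * L) := by linarith
      _ ≤ ε * 2 ^ u := h4
      _ ≤ _ := mul_le_mul_of_nonneg_left h5 hε.le
  have h8 : (Nat.card k : ℝ) ^ (2 * g + 1) =
      (Nat.card k : ℝ) ^ (g + 1) * (Nat.card k : ℝ) ^ T * (Nat.card k : ℝ) ^ u := by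
    rw [← pow_add, ← pow_add]
    congr 1
    omega
  have hA : 0 ≤ (Nat.card k : ℝ) ^ (g + 1) := pow_nonneg hq0.le _
  have hB : 0 ≤ (Nat.card k : ℝ) ^ T := pow_nonneg hq0.le _
  calc ((g : ℝ) + 1) * ((Nat.card k : ℝ) ^ (g + 1) *
        ∑ a ∈ Finset.range (T + 1), (Nat.card k : ℝ) ^ a)
      ≤ ((g : ℝ) + 1) * ((Nat.card k : ℝ) ^ (g + 1) * ((Nat.card k : ℝ) ^ T * 2)) :=
        mul_le_mul_of_nonneg_left (mul_le_mul_of_nonneg_left h3 hA) (by positivity)
    _ = (Nat.card k : ℝ) ^ (g + 1) * (Nat.card k : ℝ) ^ T * (2 * ((g : ℝ) + 1)) := by ring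
    _ ≤ (Nat.card k : ℝ) ^ (g + 1) * (Nat.card k : ℝ) ^ T * (ε * (Nat.card k : ℝ) ^ u) :=
        mul_le_mul_of_nonneg_left h7 (mul_nonneg hA hB)
    _ = (Nat.card k : ℝ) ^ (2 * g + 1) * ε := by rw [h8]; ring

end

end Pool.Agent.Y290.SC
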