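import Pool.Agent.Y290.SC.Cls

set_option autoImplicit false
set_option maxHeartbeats 1000000

/-!
Class conditions: counts modulo squarefree polynomials.
-/

open Polynomial Classical

namespace Pool.Agent.Y290.SC

open Pool.Agent.Y711 Pool.Agent.W313.Hyp Pool.Agent.Y153.SV

section

variable {k : Type} [Field k] [Finite k]

theorem rw2_one (W : MI k → Finset ℤ) : rw2 (1 : k[X]) W = 1 := by
  unfold rw2
  rw [pd_one, Finset.prod_empty]

theorem rw2_mulP (W : MI k → Finset ℤ) (P : MI k) {m : k[X]} (hm : m ≠ 0) (hc : IsCoprime P.1 m) :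
    rw2 (P.1 * m) W = ((W P).card : ℝ) / 2 * rw2 m W := by
  unfold rw2
  rw [pd_mul P hm, Finset.prod_insert (notMem_pd hm hc)]

theorem rw2_mul (W : MI k → Finset ℤ) {m n : k[X]} (hm : m ≠ 0) (hn : n ≠ 0) (h : IsCoprime m n) :
    rw2 (m * n) W = rw2 m W * rw2 n W := by
  unfold rw2
  rw [pd_mul' hm hn, Finset.prod_union (pd_disj hm hn h)]

theorem rw2_nonneg (W : MI k → Finset ℤ) (n : k[X]) : 0 ≤ rw2 n W := by
  unfold rw2
  exact Finset.prod_nonneg fun P _ => by positivity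

theorem card_W {W : Finset ℤ} (hW : W ⊆ {1, -1}) : W.card ≤ 2 :=
  (Finset.card_le_card hW).trans (by decide)

theorem rw2_le_one {W : MI k → Finset ℤ} (hW : ∀ P, W P ⊆ {1, -1}) (n : k[X]) :
    rw2 n W ≤ 1 := by
  unfold rw2
  refine Finset.prod_le_one (fun P _ => by positivity) fun P _ => ?_
  rw [div_le_one (by norm_num)]
  exact_mod_cast card_W (hW P)

theorem LT_zero : LT k 0 = {0} := by
  ext r
  rw [mem_LT, Finset.mem_singleton]
  constructor
  · intro h
    rw [← degree_eq_bot]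
    by_contra hne
    have h2 : r ≠ 0 := fun h0 => hne (by rw [h0, degree_zero])
    rw [degree_eq_natDegree h2] at h
    norm_cast at h
  · rintro rfl
    exact mem_LT.1 (zero_mem_LT _)

/-! ### the counts `cW` -/

theorem cW_mul (W : MI k → Finset ℤ) {m n : k[X]} (c : k[X]) (hm : m ≠ 0) (hn : n ≠ 0)
    (h : IsCoprime m n) : cW W (m * n) c = cW W m c * cW W n c := by
  unfold cW
  rw [Finset.card_filter, Finset.card_filter, Finset.card_filter,
    ← sum_crt hm hn h (fun r => if IsCls m W (c * r) then 1 else 0)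
      (fun r => if IsCls n W (c * r) then 1 else 0)]
  apply Finset.sum_congr rfl
  intro r _
  have h1 : IsCls m W (c * (r % m)) ↔ IsCls m W (c * r) := by
    apply cls_congr
    rw [← mul_sub]
    exact (dvd_mod_sub r m).mul_left _
  have h2 : IsCls n W (c * (r % n)) ↔ IsCls n W (c * r) := by
    apply cls_congr
    rw [← mul_sub]
    exact (dvd_mod_sub r n).mul_left _
  simp only [cls_mul, h1, h2]
  by_cases h3 : IsCls m W (c * r) <;> by_cases h4 : IsCls n W (c * r) <;> simp [h3, h4]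

theorem cW_eq (h2 : (2 : k) ≠ 0) {W : MI k → Finset ℤ} (hW : ∀ P, W P ⊆ {1, -1}) (c n : k[X])
    (hn : n.Monic) (hsq : Squarefree n) :
    IsCoprime c n → (cW W n c : ℝ) = phi n * rw2 n W := by
  refine sqf_ind (fun n => IsCoprime c n → (cW W n c : ℝ) = phi n * rw2 n W) ?_ ?_ n hn hsq
  · intro _
    rw [rw2_one, phi_one]
    unfold cW
    rw [natDegree_one, LT_zero, Finset.filter_true_of_mem (fun w _ => cls_one W _),
      Finset.card_singleton]
    norm_num
  · intro P m hm _ _ hc' ih hG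
    rw [IsCoprime.mul_right_iff] at hG
    have hP0 : P.1 ≠ 0 := P.2.1.ne_zero
    rw [cW_mul W c hP0 hm.ne_zero hc', phi_mul hP0 hm.ne_zero hc', rw2_mulP W P hm.ne_zero hc']
    push_cast
    rw [ih hG.2]
    have h3 : 2 * (cW W P.1 c : ℝ) = (W P).card * phi P.1 := by
      exact_mod_cast cW_prime h2 P (hW P) hG.1
    linear_combination (phi m : ℝ) * rw2 m W / 2 * h3

/-! ### the counts `hW` -/

omit [Finite k] in
theorem cube_dvd {N G r r' A A' : k[X]} (κ : k) (hr : N ∣ r - r') (hA : N ∣ A - A') :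
    N ∣ G * (G * r ^ 2 - C κ * A ^ 3) - G * (G * r' ^ 2 - C κ * A' ^ 3) := by
  obtain ⟨c, hc⟩ := hr
  obtain ⟨d, hd⟩ := hA
  exact ⟨G * (G * c * (r + r') - C κ * d * (A ^ 2 + A * A' + A' ^ 2)), by
    linear_combination G * (G * (r + r') * hc - C κ * (A ^ 2 + A * A' + A' ^ 2) * hd)⟩

theorem hW_mod (W : MI k → Finset ℤ) {n G M : k[X]} {κ : k} {A : k[X]} (h : n ∣ M) :
    hW W n G κ (A % M) = hW W n G κ A := by
  unfold hW
  refine congrArg Finset.card (Finset.filter_congr fun r _ => ?_)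
  apply cls_congr
  exact cube_dvd κ (by rw [sub_self]; exact dvd_zero _) (h.trans (dvd_mod_sub A M))

theorem hW_mul (W : MI k → Finset ℤ) {m n G : k[X]} (κ : k) (A : k[X]) (hm : m ≠ 0) (hn : n ≠ 0)
    (h : IsCoprime m n) : hW W (m * n) G κ A = hW W m G κ A * hW W n G κ A := by
  unfold hW
  rw [Finset.card_filter, Finset.card_filter, Finset.card_filter,
    ← sum_crt hm hn h (fun r => if IsCls m W (G * (G * r ^ 2 - C κ * A ^ 3)) then 1 else 0)
      (fun r => if IsCls n W (G * (G * r ^ 2 - C κ * A ^ 3)) then 1 else 0)]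
  apply Finset.sum_congr rfl
  intro r _
  have h1 : IsCls m W (G * (G * (r % m) ^ 2 - C κ * A ^ 3)) ↔
      IsCls m W (G * (G * r ^ 2 - C κ * A ^ 3)) :=
    cls_congr W (cube_dvd κ (dvd_mod_sub r m) (by rw [sub_self]; exact dvd_zero _))
  have h2 : IsCls n W (G * (G * (r % n) ^ 2 - C κ * A ^ 3)) ↔
      IsCls n W (G * (G * r ^ 2 - C κ * A ^ 3)) :=
    cls_congr W (cube_dvd κ (dvd_mod_sub r n) (by rw [sub_self]; exact dvd_zero _))
  simp only [cls_mul, h1, h2]
  by_cases h3 : IsCls m W (G * (G * r ^ 2 - C κ * A ^ 3)) <;>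
    by_cases h4 : IsCls n W (G * (G * r ^ 2 - C κ * A ^ 3)) <;> simp [h3, h4]

theorem hW_sum (h2 : (2 : k) ≠ 0) {W : MI k → Finset ℤ} (hW' : ∀ P, W P ⊆ {1, -1}) (G : k[X])
    {κ : k} (hκ : κ ≠ 0) (n : k[X]) (hn : n.Monic) (hsq : Squarefree n) :
    IsCoprime G n → ((∑ A ∈ LT k n.natDegree, hW W n G κ A : ℕ) : ℝ) =
      (Nat.card k : ℝ) ^ n.natDegree * phi n * rw2 n W := by
  refine sqf_ind (fun n => IsCoprime G n →
    ((∑ A ∈ LT k n.natDegree, hW W n G κ A : ℕ) : ℝ) =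
      (Nat.card k : ℝ) ^ n.natDegree * phi n * rw2 n W) ?_ ?_ n hn hsq
  · intro _
    rw [rw2_one, phi_one, natDegree_one, LT_zero, Finset.sum_singleton]
    unfold hW
    rw [natDegree_one, LT_zero, Finset.filter_true_of_mem (fun w _ => cls_one W _),
      Finset.card_singleton]
    norm_num
  · intro P m hm _ _ hc' ih hG
    rw [IsCoprime.mul_right_iff] at hG
    have hP0 : P.1 ≠ 0 := P.2.1.ne_zero
    have h1 := sum_crt hP0 hm.ne_zero hc' (fun A => hW W P.1 G κ A) (fun A => hW W m G κ A)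
    have h3 : ∑ A ∈ LT k (P.1 * m).natDegree, hW W (P.1 * m) G κ A =
        ∑ r ∈ LT k (P.1 * m).natDegree, hW W P.1 G κ (r % P.1) * hW W m G κ (r % m) := by
      refine Finset.sum_congr rfl fun A _ => ?_
      rw [hW_mul W κ A hP0 hm.ne_zero hc', hW_mod W dvd_rfl, hW_mod W dvd_rfl]
    rw [h3, h1, Nat.cast_mul, ih hG.2, phi_mul hP0 hm.ne_zero hc',
      natDegree_mul hP0 hm.ne_zero, pow_add, rw2_mulP W P hm.ne_zero hc']
    have h4 : 2 * ((∑ A ∈ LT k P.1.natDegree, hW W P.1 G κ A : ℕ) : ℝ) =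
        (W P).card * ((Nat.card k : ℝ) ^ P.1.natDegree * phi P.1) := by
      exact_mod_cast hW_prime h2 P (hW' P) hG.1 hκ
    push_cast at h4 ⊢
    linear_combination ((Nat.card k : ℝ) ^ m.natDegree * phi m * rw2 m W) / 2 * h4

end

end Pool.Agent.Y290.SC
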